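import Pool.Agent.Lib.CTI.Den

/-!
# AbsJD: a Turing ideal which generates a closed subspace

`R` is the set of all reals of a model, `S` the ideal. Every real of `R` is the limit of a member of `S`, and every
countable sequence (coded by a real of `R`) of members of `S` has an upper bound in `S`.
-/

set_option autoImplicit false

namespace Pool.Agent.CTI

open Pool.Agent.SX Pool.Agent.Mart

/-- the operations which are used -/
inductive Opn : Type
  | row (i : ℕ)
  | ac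
  | ak (k : ℕ)
  | jk (k : ℕ)
  | cst
  | mj
  | j01

deriving instance Countable for Opn

instance : Nonempty Opn := ⟨.ac⟩

def Opn.op : Opn → Cs → Cs
  | .row i => CTI.row i
  | .ac => acode
  | .ak k => CTI.ak k
  | .jk k => CTI.jk k
  | .cst => CTI.cst
  | .mj => maj
  | .j01 => fun w => bjoin (CTI.row 0 w) (CTI.row 1 w)

/-- a Turing ideal `S` of a family `R` of reals which generates a closed subspace -/
structure ClosedIdeal (R S : Set Cs) : Prop where
  op : ∀ (o : Opn) (x : Cs), x ∈ R → o.op x ∈ R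
  sub : S ⊆ R
  ne : S.Nonempty
  down : ∀ x ∈ R, ∀ y ∈ S, TR x y → x ∈ S
  join : ∀ x ∈ S, ∀ y ∈ S, bjoin x y ∈ R → bjoin x y ∈ S
  closed : ∀ x ∈ R, (∀ ε : ℝ, 0 < ε → ∃ y ∈ S, upperDensity (symmDiff (st x) (st y)) < ε) →
    ∃ y ∈ S, CoarselySimilar (st x) (st y)

variable {R S : Set Cs}

private theorem abs_near (H : ClosedIdeal R S) {β : Cs} (hβ : β ∈ R) (hk : ∀ k, ak k β ∈ S) :
    ∃ y ∈ S, ∀ i, ∃ m0, ∀ m ≥ m0, maj y (Nat.pair i m) = β (Nat.pair i m) := by
  obtain ⟨y, hy, hs⟩ := H.closed (acode β) (H.op .ac β hβ) (fun ε hε => by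
    obtain ⟨k, h⟩ := exists_ak_near β hε
    exact ⟨ak k β, hk k, h⟩)
  refine ⟨y, hy, maj_correct ?_⟩
  unfold CoarselySimilar at hs ⊢
  rwa [symmDiff_comm]

theorem abs_J (H : ClosedIdeal R S) {f : Cs} (hf : f ∈ R) : ∃ D ∈ S, Lim D f := by
  obtain ⟨y0, hy0⟩ := H.ne
  have hc : cst f ∈ R := H.op .cst f hf
  obtain ⟨y, hy, hm⟩ := abs_near H hc fun k => H.down _ (H.op (.ak k) _ hc) y0 hy0 (tr_ak_cst k f y0)
  refine ⟨maj y, H.down _ (H.op .mj y (H.sub hy)) y hy (tr_maj y), fun j => ?_⟩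
  obtain ⟨m0, h0⟩ := hm j
  refine ⟨m0, fun t => ?_⟩
  rw [h0 _ (Nat.le_add_right _ _)]
  unfold cst
  rw [Nat.unpair_pair]

theorem abs_D (H : ClosedIdeal R S) {β : Cs} (hβ : β ∈ R) (hr : ∀ i, row i β ∈ S) :
    ∃ D ∈ S, ∀ i, TR (row i β) D := by
  obtain ⟨y0, hy0⟩ := H.ne
  obtain ⟨y, hy, hm⟩ := abs_near H hβ (fun k => by
    induction k with
    | zero => exact H.down _ (H.op (.ak 0) β hβ) y0 hy0 (tr_ak_zero β y0)
    | succ k ih =>
      have h1 : jk k β ∈ S := H.join _ ih _ (hr k) (H.op (.jk k) β hβ)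
      exact H.down _ (H.op (.ak (k + 1)) β hβ) _ h1 (tr_ak_succ k β))
  refine ⟨y, hy, fun i => ?_⟩
  obtain ⟨m0, h0⟩ := hm i
  have h1 : TR (row i β) (row i (maj y)) := tr_of_eventually (N := m0) fun m hm => (h0 m hm).symm
  exact h1.trans ((tr_row i _).trans (tr_maj y))

/-- `Φ x n` depends only on finitely many values of `x` -/
def Loc (Φ : Cs → Cs) : Prop := ∀ n, ∃ N, ∀ x x' : Cs, (∀ k < N, x k = x' k) → Φ x n = Φ x' n

private theorem loc_re (φ : ℕ → ℕ) : Loc fun x n => x (φ n) := fun n =>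
  ⟨φ n + 1, fun _ _ h => h _ (Nat.lt_succ_self _)⟩

private theorem loc_ak (k : ℕ) : Loc (ak k) := fun n =>
  ⟨Nat.pair (v2 n) (Nat.log 2 n) + 1, fun x x' h => by
    unfold ak acode
    rw [h _ (Nat.lt_succ_self _)]⟩

theorem loc_op (o : Opn) : Loc o.op := by
  cases o with
  | row i => exact loc_re _
  | ac => exact loc_re _
  | ak k => exact loc_ak k
  | jk k =>
    intro n
    obtain ⟨N, hN⟩ := loc_ak k (n / 2)
    refine ⟨N + Nat.pair k (n / 2) + 1, fun x x' h => ?_⟩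
    show bjoin (ak k x) (row k x) n = bjoin (ak k x') (row k x') n
    unfold bjoin row
    rw [hN x x' fun j hj => h j (by omega), h (Nat.pair k (n / 2)) (by omega)]
  | cst => exact loc_re _
  | j01 =>
    intro n
    refine ⟨Nat.pair 0 (n / 2) + Nat.pair 1 (n / 2) + 1, fun x x' h => ?_⟩
    show bjoin (row 0 x) (row 1 x) n = bjoin (row 0 x') (row 1 x') n
    unfold bjoin row
    rw [h (Nat.pair 0 (n / 2)) (by omega), h (Nat.pair 1 (n / 2)) (by omega)]
  | mj =>
    intro n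
    obtain ⟨N, hN⟩ : ∃ N, ∀ j < 2 ^ (n.unpair.2 - n.unpair.1 - 1), ptn n.unpair.1 n.unpair.2 j < N := by
      refine ⟨ptn n.unpair.1 n.unpair.2 (2 ^ (n.unpair.2 - n.unpair.1 - 1)), fun j hj => ?_⟩
      unfold ptn
      have h1 : 2 ^ n.unpair.1 * (2 * j + 1) <
          2 ^ n.unpair.1 * (2 * 2 ^ (n.unpair.2 - n.unpair.1 - 1) + 1) :=
        Nat.mul_lt_mul_of_pos_left (by omega) (by positivity)
      omega
    refine ⟨N, fun x x' h => ?_⟩
    show maj x n = maj x' n
    unfold maj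
    have e : ((Finset.range (2 ^ (n.unpair.2 - n.unpair.1 - 1))).filter
        fun j => x (ptn n.unpair.1 n.unpair.2 j) = true) =
        (Finset.range (2 ^ (n.unpair.2 - n.unpair.1 - 1))).filter
        fun j => x' (ptn n.unpair.1 n.unpair.2 j) = true := by
      apply Finset.filter_congr
      intro j hj
      rw [h _ (hN j (Finset.mem_range.1 hj))]
    rw [e]

end Pool.Agent.CTI
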