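import Pool.Agent.Lib.SX.BDefs

/-!
# Defs: the interface for a Turing ideal in the extension by the product of Sacks forcings, Boolean values

The forcing notion `PM K`, the action `ac`, the points `rl` are those of the library `SX`.
-/

set_option autoImplicit false
universe u

namespace Pool.Agent.CTI

open Pool.Agent.SX Pool.Agent.Mart Cardinal
open scoped symmDiff

/-- `f` is the limit of the rows of `D` -/
def Lim (D f : Cs) : Prop := ∀ j, ∃ s, ∀ t, D (Nat.pair j (s + t)) = f j

theorem Lim.uniq {D f g : Cs} (h : Lim D f) (h' : Lim D g) : f = g := by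
  funext j
  obtain ⟨s, hs⟩ := h j
  obtain ⟨s', hs'⟩ := h' j
  have h1 := hs s'
  have h2 := hs' s
  rw [Nat.add_comm] at h2
  rw [← h1, ← h2]

/-- What a name of a Turing ideal `U` gives which has the two properties `every real is the limit of a
member of U` and `every countable sequence of members of U has an upper bound in U`.
`Mem h b`: `h` forces that the real `b` (a continuous function of the generic point) is in `U`.
`V0 h a b`: `h` forces that `b` is the chosen member of `U` with limit `a`.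
`V1 h z b`: `h` forces that `b` is a member of `U` which computes all the reals chosen for the terms of `z`. -/
structure Idl (K : Type) where
  Mem : PM K → ((K → Cs) → Cs) → Prop
  V0 : PM K → ((K → Cs) → Cs) → ((K → Cs) → Cs) → Prop
  V1 : PM K → ((K → Cs) → ℕ → Cs) → ((K → Cs) → Cs) → Prop
  cont0 : ∀ {h a b}, V0 h a b → Continuous b
  cont1 : ∀ {h a b}, V1 h a b → Continuous b
  ex0 : ∀ h a, Continuous a → ∃ k b, V0 (h * k) (a ∘ ac k) b
  ex1 : ∀ h a, Continuous a → ∃ k b, V1 (h * k) (a ∘ ac k) b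
  res0 : ∀ {h a b}, V0 h a b → ∀ k, V0 (h * k) (a ∘ ac k) (b ∘ ac k)
  res1 : ∀ {h a b}, V1 h a b → ∀ k, V1 (h * k) (a ∘ ac k) (b ∘ ac k)
  resM : ∀ {h b}, Mem h b → ∀ k, Mem (h * k) (b ∘ ac k)
  le01 : ∀ {h a z b b'}, V0 h a b → V1 h z b' → (∃ n, ∀ x, a x = z x n) →
    ∃ k, ∀ x, TR (b (ac k x)) (b' (ac k x))
  lim0 : ∀ {h a b}, V0 h a b → ∃ k, ∀ x, Lim (b (ac k x)) (a (ac k x))
  mem1 : ∀ {h z b}, V1 h z b → Mem h b
  memJ : ∀ {h b b'}, Mem h b → Mem h b' → Mem h (fun x => bjoin (b x) (b' x))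
  memL : ∀ {h a b}, Mem h b → Continuous a → (∀ x, TR (a x) (b x)) → Mem h a

/-! ### Boolean values; a real is a sequence `ℕ → B` -/

section
variable {B : Type u} [CompleteBooleanAlgebra B]

/-- row `i` of the name `w` -/
def rw (w : ℕ → B) (i : ℕ) : ℕ → B := fun m => w (Nat.pair i m)

/-- the name with the rows `u i` -/
def glue (u : ℕ → ℕ → B) : ℕ → B := fun n => u n.unpair.1 n.unpair.2

/-- the join of two names -/
def jnB (u v : ℕ → B) : ℕ → B := fun n => if n % 2 = 0 then u (n / 2) else v (n / 2)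

/-- the value of: `f` is the limit of the rows of `D`, `f k = lim D (k, s)` for all `k` -/
def limB (D f : ℕ → B) : B := ⨅ k, ⨆ s, ⨅ t, (D (Nat.pair k (s + t)) ⇔ f k)

/-- `P` is a predicate of reals -/
def Ext1 (P : (ℕ → B) → B) : Prop := ∀ u u', eqv u u' ⊓ P u ≤ P u'

/-- `P` is a relation of reals -/
def Ext2 (P : (ℕ → B) → (ℕ → B) → B) : Prop := ∀ u u' v v', eqv u u' ⊓ eqv v v' ⊓ P u v ≤ P u' v'

/-- the value of: the conditions on the ideal hold for the rows of `w` -/
def idV (P : (ℕ → B) → B) (w : ℕ → B) : B :=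
  (P (rw w 1) ⊓ trB (rw w 0) (rw w 1) ⇨ P (rw w 0)) ⊓
    (P (rw w 0) ⊓ P (rw w 1) ⇨ P (jnB (rw w 0) (rw w 1))) ⊓
    (⨆ D, P D ⊓ limB D (rw w 0)) ⊓
    ((⨅ i, P (rw w i)) ⇨ ⨆ D, P D ⊓ ⨅ i, trB (rw w i) D)

/-- the value of: `P` is a Turing ideal, every real is the limit of a member of `P`, every countable
sequence of members has an upper bound in `P` -/
def idB (P : (ℕ → B) → B) : B := ⨅ w, idV P w

end

end Pool.Agent.CTI
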