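import Pool.Agent.Lib.SX.M.Mixb
import Pool.Agent.Lib.CTI.Defs

/-!
# Chc: choice for relations of reals, least values, the conditions on the ideal are extensional
-/

set_option autoImplicit false
universe u

namespace Pool.Agent.CTI

open Pool.Agent.SX Pool.Agent.Lib.BVM
open scoped symmDiff

variable {B : Type u} [CompleteBooleanAlgebra B]

/-- the part of `P f D` where no earlier name works -/
private noncomputable def chQ (P : (ℕ → B) → (ℕ → B) → B) (f D : ℕ → B) : B :=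
  P f D ⊓ (⨆ D' : {D' : ℕ → B // WellOrderingRel D' D}, P f D'.1)ᶜ

private noncomputable def chF (P : (ℕ → B) → (ℕ → B) → B) (f : ℕ → B) : ℕ → B :=
  fun n => ⨆ D, chQ P f D ⊓ D n

private theorem chQ_ext {P : (ℕ → B) → (ℕ → B) → B} (hP : Ext2 P) (f f' D : ℕ → B) :
    eqv f f' ⊓ chQ P f D ≤ chQ P f' D := by
  refine le_of_forall_ult fun U hU => ?_
  unfold chQ at hU ⊢
  simp only [U.inf_iff, U.compl'] at hU ⊢
  obtain ⟨h1, h2, h3⟩ := hU
  refine ⟨U.mono' (hP f f' D D) (U.inf' (U.inf' h1 (by rw [eqv_refl]; exact U.top')) h2), fun h4 => h3 ?_⟩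
  refine U.mono' ?_ (U.inf' h1 h4)
  rw [inf_iSup_eq]
  refine iSup_mono fun D' => ?_
  refine le_trans ?_ (hP f' f D'.1 D'.1)
  rw [eqv_symm f f', eqv_refl, inf_top_eq]

private theorem chQ_disj {P : (ℕ → B) → (ℕ → B) → B} (f : ℕ → B) {D D' : ℕ → B} (h : D ≠ D') :
    chQ P f D ⊓ chQ P f D' = ⊥ := by
  have key : ∀ D D' : ℕ → B, WellOrderingRel D D' → chQ P f D ⊓ chQ P f D' ≤ ⊥ := by
    intro D D' hr
    refine le_of_forall_ult fun U hU => ?_
    exfalso
    unfold chQ at hU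
    simp only [U.inf_iff, U.compl'] at hU
    exact hU.2.2 (U.mono' (le_iSup (fun D'' : {D'' : ℕ → B // WellOrderingRel D'' D'} => P f D''.1) ⟨D, hr⟩) hU.1.1)
  rw [← le_bot_iff]
  rcases trichotomous_of WellOrderingRel D D' with h1 | h1 | h1
  · exact key D D' h1
  · exact absurd h1 h
  · rw [inf_comm]
    exact key D' D h1

private theorem chQ_sup (P : (ℕ → B) → (ℕ → B) → B) (f D : ℕ → B) : P f D ≤ ⨆ D', chQ P f D' := by
  have hwf : WellFounded (WellOrderingRel : (ℕ → B) → (ℕ → B) → Prop) := IsWellFounded.wf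
  induction D using hwf.induction with
  | _ D ih =>
    refine le_of_forall_ult fun U hU => ?_
    by_cases h1 : U.S (⨆ D' : {D' : ℕ → B // WellOrderingRel D' D}, P f D'.1)
    · exact U.mono' (iSup_le fun (D' : {D' : ℕ → B // WellOrderingRel D' D}) => ih D'.1 D'.2) h1
    · refine U.mono' (le_iSup (fun D' => chQ P f D') D) ?_
      unfold chQ
      exact U.inf' hU (U.compl'.2 h1)

private theorem chQ_eqv (P : (ℕ → B) → (ℕ → B) → B) (f D : ℕ → B) : chQ P f D ≤ eqv D (chF P f) := by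
  refine le_eqv fun U hU k => ⟨fun h => ?_, fun h => ?_⟩
  · exact U.mono' (le_iSup (fun D' => chQ P f D' ⊓ D' k) D) (U.inf' hU h)
  · refine U.mono' ?_ (U.inf' hU h)
    unfold chF
    rw [inf_iSup_eq]
    refine iSup_le fun D' => ?_
    by_cases hD : D = D'
    · subst hD
      exact inf_le_right.trans inf_le_right
    · rw [← inf_assoc, chQ_disj f hD, bot_inf_eq]
      exact bot_le

/-- choice -/
theorem exists_choice (P : (ℕ → B) → (ℕ → B) → B) (hP : Ext2 P) :
    ∃ F : (ℕ → B) → ℕ → B, ExtF F ∧ ∀ f, ⨆ D, P f D ≤ P f (F f) := by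
  refine ⟨chF P, fun f f' n => ?_, fun f => ?_⟩
  · unfold chF
    rw [inf_iSup_eq]
    refine iSup_mono fun D => ?_
    rw [← inf_assoc]
    exact inf_le_inf_right _ (chQ_ext hP f f' D)
  · refine iSup_le fun D => (chQ_sup P f D).trans (iSup_le fun D' => ?_)
    refine le_of_forall_ult fun U hU => ?_
    have h1 := U.mono' (chQ_eqv P f D') hU
    have h2 : U.S (P f D') := by
      unfold chQ at hU
      exact (U.inf_iff.1 hU).1
    exact U.mono' (hP f f D' (chF P f)) (U.inf' (U.inf' (by rw [eqv_refl]; exact U.top') h1) h2)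

/-- the infimum is attained -/
theorem exists_min (P : (ℕ → B) → B) (hP : Ext1 P) : ∃ w, P w = ⨅ u, P u := by
  obtain ⟨F, -, hF⟩ := exists_choice (fun _ D => (P D)ᶜ) (by
    intro u u' v v'
    refine le_of_forall_ult fun U hU => ?_
    simp only [U.inf_iff, U.compl'] at hU ⊢
    intro h
    apply hU.2
    have h1 : U.S (eqv v' v) := by rw [eqv_symm]; exact hU.1.2
    exact U.mono' (hP v' v) (U.inf' h1 h))
  refine ⟨F fun _ => ⊥, le_antisymm (le_iInf fun u => ?_) (iInf_le _ _)⟩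
  have h1 := (le_iSup (fun D => (P D)ᶜ) u).trans (hF fun _ => ⊥)
  exact compl_le_compl_iff_le.1 h1

theorem rw_congr (w w' : ℕ → B) (i : ℕ) : eqv w w' ≤ eqv (rw w i) (rw w' i) :=
  le_eqv fun U hU k => eqv_S U hU (Nat.pair i k)

theorem jnB_congr (u u' v v' : ℕ → B) : eqv u u' ⊓ eqv v v' ≤ eqv (jnB u v) (jnB u' v') :=
  le_eqv fun U hU k => by
    rw [U.inf_iff] at hU
    unfold jnB
    split_ifs with h
    · exact eqv_S U hU.1 _
    · exact eqv_S U hU.2 _

theorem limB_congr (D D' f f' : ℕ → B) : eqv D D' ⊓ eqv f f' ⊓ limB D f ≤ limB D' f' := by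
  unfold limB
  refine le_iInf fun k => ?_
  refine (inf_le_inf_left _ (iInf_le _ k)).trans ?_
  rw [inf_iSup_eq]
  refine iSup_mono fun s => le_iInf fun t => ?_
  refine (inf_le_inf_left _ (iInf_le _ t)).trans ?_
  refine le_of_forall_ult fun U hU => ?_
  simp only [U.inf_iff, bih_iff] at hU ⊢
  rw [← eqv_S U hU.1.1, ← eqv_S U hU.1.2]
  exact hU.2

theorem idV_ext {P : (ℕ → B) → B} (hP : Ext1 P) : Ext1 (idV P) := by
  have hP' : ∀ (U : Ult B) (a b : ℕ → B), U.S (eqv a b) → (U.S (P a) ↔ U.S (P b)) := by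
    intro U a b h
    constructor
    · intro h1
      exact U.mono' (hP a b) (U.inf' h h1)
    · intro h1
      rw [eqv_symm] at h
      exact U.mono' (hP b a) (U.inf' h h1)
  intro w w'
  refine le_of_forall_ult fun U hU => ?_
  rw [U.inf_iff] at hU
  obtain ⟨h, hw⟩ := hU
  have h' : U.S (eqv w' w) := by rwa [eqv_symm]
  have hr : ∀ i, U.S (eqv (rw w i) (rw w' i)) := fun i => U.mono' (rw_congr w w' i) h
  have hr' : ∀ i, U.S (eqv (rw w' i) (rw w i)) := fun i => U.mono' (rw_congr w' w i) h'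
  unfold idV at hw ⊢
  simp only [U.inf_iff, U.himp_iff] at hw ⊢
  obtain ⟨⟨⟨h1, h2⟩, h3⟩, h4⟩ := hw
  refine ⟨⟨⟨?_, ?_⟩, ?_⟩, ?_⟩
  · rintro ⟨a1, a2⟩
    refine (hP' U _ _ (hr 0)).1 (h1 ⟨(hP' U _ _ (hr 1)).2 a1, ?_⟩)
    exact U.mono' (trB_congr _ _ _ _) (U.inf' (U.inf' (hr' 0) (hr' 1)) a2)
  · rintro ⟨a1, a2⟩
    refine (hP' U _ _ ?_).1 (h2 ⟨(hP' U _ _ (hr 0)).2 a1, (hP' U _ _ (hr 1)).2 a2⟩)
    exact U.mono' (jnB_congr _ _ _ _) (U.inf' (hr 0) (hr 1))
  · refine U.mono' ?_ (U.inf' (hr 0) h3)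
    rw [inf_iSup_eq]
    refine iSup_mono fun D => le_of_forall_ult fun U' hU' => ?_
    simp only [U'.inf_iff] at hU' ⊢
    refine ⟨hU'.2.1, U'.mono' (limB_congr D D _ _) (U'.inf' (U'.inf' ?_ hU'.1) hU'.2.2)⟩
    rw [eqv_refl]
    exact U'.top'
  · intro a1
    have a2 : U.S (⨅ i, P (rw w i)) := by
      refine U.mono' (le_iInf fun i => ?_) (U.inf' h' a1)
      refine (inf_le_inf (rw_congr w' w i) (iInf_le _ i)).trans (hP _ _)
    refine U.mono' ?_ (U.inf' h (h4 a2))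
    rw [inf_iSup_eq]
    refine iSup_mono fun D => ?_
    refine le_inf (inf_le_right.trans inf_le_left) (le_iInf fun i => ?_)
    refine le_trans ?_ (trB_congr (rw w i) (rw w' i) D D)
    rw [eqv_refl, inf_top_eq]
    exact inf_le_inf (rw_congr w w' i) (inf_le_right.trans (iInf_le _ i))

theorem exists_min_idV {P : (ℕ → B) → B} (hP : Ext1 P) : ∃ w, idV P w = idB P :=
  exists_min _ (idV_ext hP)

end Pool.Agent.CTI
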