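import Pool.Agent.Lib.CTI.Defs

/-!
# CmpA: coding of a matrix of bits by a real, decoding by majority; computability
-/

set_option autoImplicit false

namespace Pool.Agent.CTI

open Pool.Agent.SX Pool.Agent.Mart Pool.Agent.GammaZero

/-- the exponent of 2 in `n` -/
def v2 (n : ℕ) : ℕ := Nat.findGreatest (fun i => 2 ^ i ∣ n) n

/-- row `i` of the matrix `β` -/
def row (i : ℕ) (β : Cs) : Cs := fun m => β (Nat.pair i m)

/-- the matrix with constant rows `f i` -/
def cst (f : Cs) : Cs := fun n => f n.unpair.1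

/-- the code of the matrix `β` -/
def acode (β : Cs) : Cs := fun n => β (Nat.pair (v2 n) (Nat.log 2 n))

/-- the code of the rows below `k` -/
def ak (k : ℕ) (β : Cs) : Cs := fun n => if 2 ^ k ∣ n then false else acode β n

/-- join of `ak k β` and row `k` -/
def jk (k : ℕ) (β : Cs) : Cs := bjoin (ak k β) (row k β)

/-- the numbers in `[2 ^ m, 2 ^ (m + 1))` which are divisible by `2 ^ i` and not by `2 ^ (i + 1)` -/
def ptn (i m j : ℕ) : ℕ := 2 ^ m + 2 ^ i * (2 * j + 1)

/-- majority decoding -/
def maj (D : Cs) : Cs := fun n =>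
  decide (2 ^ (n.unpair.2 - n.unpair.1 - 1) <
    2 * ((Finset.range (2 ^ (n.unpair.2 - n.unpair.1 - 1))).filter
      fun j => D (ptn n.unpair.1 n.unpair.2 j) = true).card)

theorem v2_eq {n k : ℕ} (h : 2 ^ k ∣ n) (h' : ¬ 2 ^ (k + 1) ∣ n) : v2 n = k := by
  have h0 : n ≠ 0 := by
    rintro rfl
    exact h' (dvd_zero _)
  unfold v2
  rw [Nat.findGreatest_eq_iff]
  refine ⟨?_, fun _ => h, fun i hi _ hd => h' ((pow_dvd_pow 2 hi).trans hd)⟩
  exact (Nat.lt_two_pow_self.le).trans (Nat.le_of_dvd (Nat.pos_of_ne_zero h0) h)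

theorem tr_row (i : ℕ) (β : Cs) : TR (row i β) β := by
  rw [tr_iff_ci]
  exact ci_orc_comp (TR.refl β) (CI.npair (CI.const i) (CI.of_computable Computable.id))

private theorem ite_toNat {p : Prop} [Decidable p] (a b : Bool) :
    (if p then a else b).toNat = if p then a.toNat else b.toNat := by
  split_ifs <;> rfl

theorem tr_ak_succ (k : ℕ) (β : Cs) : TR (ak (k + 1) β) (jk k β) := by
  classical
  rw [tr_iff_ci]
  have hd : ∀ k, DI {orc (jk k β)} (fun n : ℕ => 2 ^ k ∣ n) := fun k =>
    (DI.eq (CI.mod (CI.of_computable Computable.id) (CI.const (2 ^ k))) (CI.const 0)).of_iff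
      fun n => Nat.dvd_iff_mod_eq_zero
  have hd2 : ∀ i, DI {orc (jk k β)} (fun n : ℕ => 2 ^ i ∣ n) := fun i =>
    (DI.eq (CI.mod (CI.of_computable Computable.id) (CI.const (2 ^ i))) (CI.const 0)).of_iff
      fun n => Nat.dvd_iff_mod_eq_zero
  have h1 : CI {orc (jk k β)} (fun n : ℕ => (ak k β n).toNat) :=
    ci_orc_comp (tr_bjoin_left _ _) (CI.of_computable Computable.id)
  have h2 : CI {orc (jk k β)} (fun n : ℕ => (row k β (Nat.log 2 n)).toNat) :=
    ci_orc_comp (tr_bjoin_right _ _) (CI.log (by norm_num) (CI.of_computable Computable.id))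
  refine (CI.ite (hd2 (k + 1)) (CI.const 0) (CI.ite (hd2 k) h2 h1)).congr fun n => ?_
  by_cases a : 2 ^ (k + 1) ∣ n
  · rw [if_pos a]
    unfold ak
    rw [if_pos a]
    rfl
  · rw [if_neg a]
    by_cases b : 2 ^ k ∣ n
    · rw [if_pos b]
      unfold ak acode row
      rw [if_neg a, v2_eq b a]
    · rw [if_neg b]
      unfold ak
      rw [if_neg a, if_neg b]

theorem tr_false (D : Cs) : TR (fun _ => false) D := by
  rw [tr_iff_ci]
  exact CI.const 0

theorem tr_const (b : Bool) (D : Cs) : TR (fun _ => b) D := by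
  rw [tr_iff_ci]
  exact CI.const b.toNat

theorem tr_ak_zero (β D : Cs) : TR (ak 0 β) D := by
  have h : ak 0 β = fun _ => false := by
    funext n
    unfold ak
    rw [if_pos (by simp)]
  rw [h]
  exact tr_false D

theorem tr_ak_cst (k : ℕ) (f D : Cs) : TR (ak k (cst f)) D := by
  induction k with
  | zero => exact tr_ak_zero _ _
  | succ k ih =>
    refine (tr_ak_succ k (cst f)).trans (bjoin_tr ih ?_)
    have h : row k (cst f) = fun _ => f k := by
      funext m
      unfold row cst
      rw [Nat.unpair_pair]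
    rw [h]
    exact tr_const _ _

theorem tr_maj (D : Cs) : TR (maj D) D := by
  classical
  rw [tr_iff_ci]
  have hi : CI {orc D} (fun n : ℕ => n.unpair.1) := CI.of_computable (Computable.fst.comp Computable.unpair)
  have hm : CI {orc D} (fun n : ℕ => n.unpair.2) := CI.of_computable (Computable.snd.comp Computable.unpair)
  have hT : CI {orc D} (fun n : ℕ => 2 ^ (n.unpair.2 - n.unpair.1 - 1)) :=
    CI.pow (CI.const 2) ((hm.tsub hi).tsub (CI.const 1))
  have hpt : CI {orc D} (fun p : ℕ × ℕ => ptn p.1.unpair.1 p.1.unpair.2 p.2) := by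
    have hi' : CI {orc D} (fun p : ℕ × ℕ => p.1.unpair.1) := hi.comp_computable Computable.fst
    have hm' : CI {orc D} (fun p : ℕ × ℕ => p.1.unpair.2) := hm.comp_computable Computable.fst
    have hj : CI {orc D} (fun p : ℕ × ℕ => p.2) := CI.of_computable Computable.snd
    exact (CI.pow (CI.const 2) hm').add ((CI.pow (CI.const 2) hi').mul (((CI.const 2).mul hj).add (CI.const 1)))
  have hD : DI {orc D} (fun p : ℕ × ℕ => D (ptn p.1.unpair.1 p.1.unpair.2 p.2) = true) := by
    refine (DI.eq (ci_orc_comp (TR.refl D) hpt) (CI.const 1)).of_iff fun p => ?_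
    cases D (ptn p.1.unpair.1 p.1.unpair.2 p.2) <;> simp
  have hc := CI.count hD hT
  refine (DI.ci (DI.lt hT ((CI.const 2).mul hc))).congr fun n => ?_
  show (decide _).toNat = _
  by_cases h : 2 ^ (n.unpair.2 - n.unpair.1 - 1) <
    2 * ((Finset.range (2 ^ (n.unpair.2 - n.unpair.1 - 1))).filter
      fun j => D (ptn n.unpair.1 n.unpair.2 j) = true).card
  · rw [if_pos h, decide_eq_true h]
    rfl
  · rw [if_neg h, decide_eq_false h]
    rfl

/-- finite changes -/
theorem tr_of_eventually {x y : Cs} {N : ℕ} (h : ∀ m ≥ N, x m = y m) : TR x y := by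
  classical
  rw [tr_iff_ci]
  let l : List ℕ := (List.range N).map fun n => (x n).toNat
  have h1 : CI {orc y} (fun n : ℕ => (l[n]?).getD 0) := by
    refine CI.of_computable ?_
    exact Computable.option_getD (Computable.list_getElem?.comp (Computable.const l) Computable.id)
      (Computable.const 0)
  refine (CI.ite (DI.lt (CI.of_computable Computable.id) (CI.const N)) h1
    (ci_orc_comp (TR.refl y) (CI.of_computable Computable.id))).congr fun n => ?_
  simp only [id]
  by_cases hn : n < N
  · rw [if_pos hn]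
    simp [l, hn]
  · rw [if_neg hn, h n (not_lt.1 hn)]

end Pool.Agent.CTI
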