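import Pool.Agent.Lib.SX.Ctb
import Pool.Agent.Lib.SX.FCod
import Pool.Agent.Lib.SX.Fini
import Pool.Agent.Lib.CTI.Ph1I

/-!
# Cor: below some condition, every real is in the ideal
-/

set_option autoImplicit false

namespace Pool.Agent.CTI

open Pool.Agent.SX Cardinal Pool.Agent.Mart

variable {K : Type}

private theorem cor_idx {x y y' : Cs} {e : ℕ} (h : Idx x e y) (h' : Idx x e y') : y = y' := by
  funext k
  obtain ⟨t, ht⟩ := h k
  obtain ⟨t', ht'⟩ := h' k
  have h1 := ht.unique ht'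
  cases h2 : y k <;> cases h3 : y' k <;> simp [h2, h3] at h1 ⊢

/-- a member which computes the reals chosen for all points of a countable set: if it is independent of the
coordinate `i = C n`, contradiction -/
private theorem cor_ind (V : Idl K) {h : PM K} {C : ℕ → K} {y : (K → Cs) → Cs}
    (hy : V.V1 h (fun x n => rl h (C n) x) y) (n : ℕ) (hi : Ind (C n) y) : False := by
  classical
  obtain ⟨k1, b, hb⟩ := V.ex0 h (rl h (C n)) (continuous_rl h (C n))
  have hb0 : Continuous b := V.cont0 hb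
  obtain ⟨k2, hk2⟩ := V.le01 hb (V.res1 hy k1) ⟨n, fun x => rfl⟩
  have hc1 : Continuous fun x : K → Cs => b (ac k2 x) := hb0.comp (continuous_ac k2)
  have hc2 : Continuous fun x : K → Cs => (y ∘ ac k1) (ac k2 x) :=
    ((V.cont1 hy).comp (continuous_ac k1)).comp (continuous_ac k2)
  obtain ⟨k3, e, he⟩ := uni hc1 hc2 hk2
  -- `b` below `k2 * k3` is a function of `y`
  have hdet : ∀ x x', y (ac (k1 * k2 * k3) x) = y (ac (k1 * k2 * k3) x') →
      b (ac (k2 * k3) x) = b (ac (k2 * k3) x') := by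
    intro x x' hxx
    have e1 : Idx (y (ac (k1 * k2 * k3) x)) e (b (ac (k2 * k3) x)) := he x
    have e2 : Idx (y (ac (k1 * k2 * k3) x')) e (b (ac (k2 * k3) x')) := he x'
    rw [hxx] at e1
    exact cor_idx e1 e2
  have hI : ∀ x x' : K → Cs, (∀ j, j ≠ C n → x j = x' j) → b (ac (k2 * k3) x) = b (ac (k2 * k3) x') :=
    fun x x' hxx => hdet x x' (hi.comp (k1 * k2 * k3) x x' hxx)
  obtain ⟨k4, hk4⟩ := V.lim0 (V.res0 hb (k2 * k3))
  let x : K → Cs := fun _ _ => false
  let x' : K → Cs := Function.update x (C n) fun _ => true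
  have hxx : ∀ j, j ≠ C n → x j = x' j := fun j hj => (Function.update_of_ne hj _ _).symm
  have h1 := hk4 x
  have h2 := hk4 x'
  have h3 : (b ∘ ac (k2 * k3)) (ac k4 x) = (b ∘ ac (k2 * k3)) (ac k4 x') := by
    refine hI _ _ fun j hj => ?_
    rw [ac_apply, ac_apply, hxx j hj]
  rw [h3] at h1
  have h4 := Lim.uniq h1 h2
  have h5 : ((h * (k1 * (k2 * k3) * k4)).1 (C n)).f (x (C n)) =
      ((h * (k1 * (k2 * k3) * k4)).1 (C n)).f (x' (C n)) := h4
  have h6 := ((h * (k1 * (k2 * k3) * k4)).1 (C n)).inj h5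
  have h7 : x' (C n) = fun _ => true := Function.update_self _ _ _
  rw [h7] at h6
  exact absurd (congrFun h6 0) (by simp [x])

private theorem cor_join (V : Idl K) {h : PM K} {Y : (K → Cs) → Cs} (hY : V.Mem h Y)
    (v : ℕ → (K → Cs) → Cs) (hv : ∀ s, V.Mem h (v s)) (N : ℕ) :
    ∃ y, V.Mem h y ∧ ∀ x, TR (Y x) (y x) ∧ ∀ s < N, TR (v s x) (y x) := by
  induction N with
  | zero => exact ⟨Y, hY, fun x => ⟨TR.refl _, fun s hs => absurd hs (Nat.not_lt_zero s)⟩⟩
  | succ N ih =>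
    obtain ⟨y, hy, hyx⟩ := ih
    refine ⟨fun x => bjoin (y x) (v N x), V.memJ hy (hv N), fun x => ⟨?_, fun s hs => ?_⟩⟩
    · exact (hyx x).1.trans (tr_bjoin_left _ _)
    · rcases Nat.lt_succ_iff_lt_or_eq.1 hs with h | rfl
      · exact ((hyx x).2 s h).trans (tr_bjoin_left _ _)
      · exact tr_bjoin_right _ _

theorem coreI (hK : 𝔠 < #K) (V : Idl K) (h : PM K) {a : (K → Cs) → Cs} (ha : Continuous a) :
    ∃ k, V.Mem (h * k) (a ∘ ac k) := by
  classical
  have : Infinite K := by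
    rw [infinite_iff]
    exact (aleph0_le_continuum.trans hK.le)
  obtain ⟨I, hI, hdep⟩ := dep ha
  obtain ⟨C, hC, -, hCI⟩ := exists_enum hK hI (Classical.arbitrary K)
  obtain ⟨k0, Y, hY⟩ := V.ex1 h (fun x n => rl h (C n) x) (continuous_pi fun n => continuous_rl h (C n))
  have hY' : V.V1 (h * k0) (fun x n => rl (h * k0) (C n) x) Y := hY
  have hYc : Continuous Y := V.cont1 hY
  have hac : Continuous (a ∘ ac k0) := ha.comp (continuous_ac k0)
  obtain ⟨g, hg⟩ := ctb hac hYc (by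
    intro k i hi
    by_cases hin : ∃ n, C n = i
    · obtain ⟨n, rfl⟩ := hin
      exact (cor_ind V (h := h * k0 * k) (V.res1 hY' k) n hi).elim
    · refine ⟨1, fun x x' hxx => ?_⟩
      refine hdep _ _ fun j hj => ?_
      have hji : j ≠ i := by
        rintro rfl
        exact hin (hCI j hj)
      show ac k0 (ac (k * 1) x) j = ac k0 (ac (k * 1) x') j
      rw [ac_apply, ac_apply, ac_apply, ac_apply, hxx j hji])
  obtain ⟨d, hd⟩ := fcod (c := (a ∘ ac k0) ∘ ac g) (Y := Y ∘ ac g)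
    (hac.comp (continuous_ac g)) (hYc.comp (continuous_ac g)) hg
  obtain ⟨k5, δ, v, hv, -, hdd⟩ := ph1I hK (V.rel (h * k0 * g)) (C 0) d
  have hYm : V.Mem (h * k0 * g * k5) (Y ∘ ac (g * k5)) := by
    have h1 := V.resM (V.mem1 hY) (g * k5)
    rw [← mul_assoc] at h1
    exact h1
  obtain ⟨y, hy, hyx⟩ := cor_join V hYm v (fun s => V.mem1 (hv s)) 8
  refine ⟨k0 * g * k5, ?_⟩
  have e : h * (k0 * g * k5) = h * k0 * g * k5 := by simp only [mul_assoc]
  rw [e]
  refine V.memL hy (ha.comp (continuous_ac _)) fun x => ?_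
  exact hd (ac k5 x) _ (hdd x _ (hyx x).2) (hyx x).1

end Pool.Agent.CTI
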