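import Pool.Agent.Lib.CTI.Itf
import Pool.Agent.Lib.CTI.Cor

/-!
# CorB: in the regular open algebra, a predicate which satisfies the conditions holds for all reals
-/

set_option autoImplicit false

namespace Pool.Agent.CTI

open Pool.Agent.SX Cardinal Pool.Agent.PolB Pool.Agent.Lib.BVM Pool.Agent.Mart

theorem coreB' {K : Type} (hK : 𝔠 < #K) (P : (ℕ → BP K) → BP K) (hP : Ext1 P) (A : ℕ → BP K) :
    idB P ≤ P A := by
  obtain ⟨F, hF, hF2⟩ := exists_lim hP
  rw [le_iff_Ap]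
  intro p hp
  refine ap_loc fun k => ?_
  obtain ⟨k1, a, ha, H⟩ := exists_rd (p * k) A
  obtain ⟨k2, hm⟩ := coreI hK (idlC hF hF2 hp) (k * k1) ha
  obtain ⟨-, D, h1, h2⟩ := hm
  have e : p * k * (k1 * k2) = p * (k * k1 * k2) := by simp only [mul_assoc]
  have e' : p * k * k1 * k2 = p * (k * k1 * k2) := by simp only [mul_assoc]
  refine ⟨k1 * k2, ?_⟩
  rw [e]
  have h3 : Rd (p * (k * k1 * k2)) A (a ∘ ac k2) := by
    rw [← e']
    exact H.mul k2
  have h4 : Ap (p * (k * k1 * k2)) (eqv D A) := Rd.eqv (ha.comp (continuous_ac k2)) h1 h3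
  exact le_iff_Ap.1 (hP D A) _ ((Ap_inf _ _ _).2 ⟨h4, h2⟩)

end Pool.Agent.CTI
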