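import Pool.Agent.Lib.CTI.CmpA

/-!
# Den: densities; the code of a matrix of bits is robust
-/

set_option autoImplicit false

open Filter Topology

namespace Pool.Agent.CTI

open Pool.Agent.SX Pool.Agent.Mart

/-- `|A ∩ [0, n)| / n` -/
noncomputable def dens (A : Set ℕ) (n : ℕ) : ℝ := ((A ∩ Set.Iio n).ncard : ℝ) / n

/-- upper density -/
noncomputable def upperDensity (A : Set ℕ) : ℝ := limsup (dens A) atTop

/-- `A ∆ B` has density 0 -/
def CoarselySimilar (A B : Set ℕ) : Prop := Tendsto (dens (symmDiff A B)) atTop (𝓝 0)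

/-- the set given by a sequence of bits -/
def st (x : Cs) : Set ℕ := {n | x n = true}

private theorem den_nonneg (A : Set ℕ) (n : ℕ) : 0 ≤ dens A n := by unfold dens; positivity

private theorem den_fin (A : Set ℕ) (n : ℕ) : (A ∩ Set.Iio n).Finite := (Set.finite_Iio n).inter_of_right A

theorem exists_ak_near (β : Cs) {ε : ℝ} (hε : 0 < ε) :
    ∃ k, upperDensity (symmDiff (st (acode β)) (st (ak k β))) < ε := by
  obtain ⟨k, hk⟩ := exists_nat_gt (4 / ε)
  have h2k : (k : ℝ) < 2 ^ k := by exact_mod_cast Nat.lt_two_pow_self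
  have hk2 : 2 / (2 : ℝ) ^ k < ε := by
    rw [div_lt_iff₀ (by positivity)]
    have h1 : 4 / ε < 2 ^ k := hk.trans h2k
    rw [div_lt_iff₀ hε] at h1
    linarith
  refine ⟨k, lt_of_le_of_lt ?_ hk2⟩
  unfold upperDensity
  refine limsup_le_of_le ⟨0, ?_⟩ ?_
  · intro a ha
    obtain ⟨n, hn⟩ := (eventually_map.1 ha).exists
    exact (den_nonneg _ n).trans hn
  · rw [eventually_atTop]
    refine ⟨2 ^ k, fun N hN => ?_⟩
    have hN0 : (0 : ℝ) < N := by
      have : 0 < N := lt_of_lt_of_le (by positivity) hN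
      exact_mod_cast this
    have hsub : symmDiff (st (acode β)) (st (ak k β)) ∩ Set.Iio N ⊆
        (((Finset.range (N / 2 ^ k + 1)).image fun q => 2 ^ k * q : Finset ℕ) : Set ℕ) := by
      rintro n ⟨hn, hnN⟩
      have hd : 2 ^ k ∣ n := by
        by_contra hd
        have h1 : ak k β n = acode β n := by
          unfold ak
          rw [if_neg hd]
        rw [Set.mem_symmDiff] at hn
        unfold st at hn
        simp only [Set.mem_ofPred_eq, h1] at hn
        tauto
      obtain ⟨q, rfl⟩ := hd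
      simp only [Finset.coe_image, Set.mem_image, Finset.mem_coe, Finset.mem_range]
      refine ⟨q, ?_, rfl⟩
      have h2 : 2 ^ k * q < N := hnN
      have h3 : q ≤ N / 2 ^ k := by
        rw [Nat.le_div_iff_mul_le (by positivity)]
        rw [mul_comm]
        exact h2.le
      omega
    have hc : (symmDiff (st (acode β)) (st (ak k β)) ∩ Set.Iio N).ncard ≤ N / 2 ^ k + 1 := by
      refine (Set.ncard_le_ncard hsub (Finset.finite_toSet _)).trans ?_
      rw [Set.ncard_coe_finset]
      exact Finset.card_image_le.trans (by rw [Finset.card_range])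
    unfold dens
    rw [div_le_div_iff₀ hN0 (by positivity)]
    have h4 : (N / 2 ^ k + 1) * 2 ^ k ≤ 2 * N := by
      have := Nat.div_mul_le_self N (2 ^ k)
      nlinarith
    have h5 : (symmDiff (st (acode β)) (st (ak k β)) ∩ Set.Iio N).ncard * 2 ^ k ≤ 2 * N :=
      (Nat.mul_le_mul_right _ hc).trans h4
    exact_mod_cast h5

theorem ptn_lt {i m j : ℕ} (hi : i < m) (hj : j < 2 ^ (m - i - 1)) : ptn i m j < 2 ^ (m + 1) := by
  unfold ptn
  have h1 : 2 ^ i * (2 * 2 ^ (m - i - 1)) = 2 ^ m := by
    rw [← pow_succ', ← pow_add]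
    congr 1
    omega
  have h2 : 2 ^ i * (2 * j + 1) < 2 ^ i * (2 * 2 ^ (m - i - 1)) :=
    Nat.mul_lt_mul_of_pos_left (by omega) (by positivity)
  rw [pow_succ]
  omega

theorem acode_ptn (β : Cs) {i m j : ℕ} (hi : i < m) (hj : j < 2 ^ (m - i - 1)) :
    acode β (ptn i m j) = β (Nat.pair i m) := by
  have h1 : Nat.log 2 (ptn i m j) = m := by
    rw [Nat.log_eq_iff (Or.inr ⟨by norm_num, by unfold ptn; positivity⟩)]
    refine ⟨?_, ptn_lt hi hj⟩
    unfold ptn
    omega
  have h2 : v2 (ptn i m j) = i := by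
    obtain ⟨c, hc⟩ : 2 ^ (i + 1) ∣ 2 ^ m := pow_dvd_pow 2 hi
    apply v2_eq
    · unfold ptn
      exact dvd_add ((pow_dvd_pow 2 hi.le)) (dvd_mul_right _ _)
    · unfold ptn
      intro h
      rw [Nat.dvd_add_right (pow_dvd_pow 2 hi), pow_succ] at h
      have h3 := Nat.dvd_of_mul_dvd_mul_left (by positivity) h
      omega
  unfold acode
  rw [h1, h2]

theorem ptn_inj {i m j j' : ℕ} (h : ptn i m j = ptn i m j') : j = j' := by
  unfold ptn at h
  have h1 : 2 ^ i * (2 * j + 1) = 2 ^ i * (2 * j' + 1) := by omega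
  have h2 := Nat.eq_of_mul_eq_mul_left (by positivity) h1
  omega

theorem maj_correct {D β : Cs} (h : CoarselySimilar (st D) (st (acode β))) (i : ℕ) :
    ∃ m0, ∀ m ≥ m0, maj D (Nat.pair i m) = β (Nat.pair i m) := by
  unfold CoarselySimilar at h
  rw [Metric.tendsto_atTop] at h
  obtain ⟨M, hM⟩ := h (1 / 2 ^ (i + 3)) (by positivity)
  refine ⟨M + i + 2, fun m hm => ?_⟩
  have hi : i < m := by omega
  have h1 := hM (2 ^ (m + 1)) (by
    have := @Nat.lt_two_pow_self (m + 1)
    omega)
  rw [dist_zero_right, Real.norm_of_nonneg (den_nonneg _ _)] at h1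
  unfold dens at h1
  have hp : (0 : ℝ) < ((2 ^ (m + 1) : ℕ) : ℝ) := by positivity
  rw [div_lt_div_iff₀ hp (by positivity), one_mul] at h1
  have h2 : (symmDiff (st D) (st (acode β)) ∩ Set.Iio (2 ^ (m + 1))).ncard * 2 ^ (i + 3) < 2 ^ (m + 1) := by
    exact_mod_cast h1
  obtain ⟨T, hT⟩ : ∃ T, T = 2 ^ (m - i - 1) := ⟨_, rfl⟩
  have hTm : 2 ^ (i + 2) * T = 2 ^ (m + 1) := by
    rw [hT, ← pow_add]
    congr 1
    omega
  -- the errors in the block
  have hE : ((Finset.range T).filter fun j => D (ptn i m j) ≠ β (Nat.pair i m)).card ≤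
      (symmDiff (st D) (st (acode β)) ∩ Set.Iio (2 ^ (m + 1))).ncard := by
    rw [← Finset.card_image_of_injective _ (fun j j' => ptn_inj (i := i) (m := m) (j := j) (j' := j')),
      ← Set.ncard_coe_finset]
    refine Set.ncard_le_ncard ?_ (den_fin _ _)
    intro n hn
    simp only [Finset.coe_image, Finset.coe_filter, Set.mem_image, Set.mem_ofPred_eq, Finset.mem_range] at hn
    obtain ⟨j, ⟨hj, hj2⟩, rfl⟩ := hn
    rw [hT] at hj
    refine ⟨?_, ptn_lt hi hj⟩
    rw [Set.mem_symmDiff]
    unfold st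
    simp only [Set.mem_ofPred_eq, acode_ptn β hi hj]
    cases h3 : D (ptn i m j) <;> cases h4 : β (Nat.pair i m) <;> simp_all
  have h5 : 2 * ((Finset.range T).filter fun j => D (ptn i m j) ≠ β (Nat.pair i m)).card < T := by
    have h6 := lt_of_le_of_lt (Nat.mul_le_mul_right (2 ^ (i + 3)) hE) h2
    have h7 : (2 : ℕ) ^ (i + 3) = 2 ^ (i + 2) * 2 := by rw [← pow_succ]
    rw [h7, ← hTm] at h6
    have h8 : 2 ^ (i + 2) * (2 * ((Finset.range T).filter fun j => D (ptn i m j) ≠ β (Nat.pair i m)).card) <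
        2 ^ (i + 2) * T := by
      calc _ = ((Finset.range T).filter fun j => D (ptn i m j) ≠ β (Nat.pair i m)).card *
            (2 ^ (i + 2) * 2) := by ring
        _ < _ := h6
    exact lt_of_mul_lt_mul_left h8 (Nat.zero_le _)
  have h9 := Finset.card_filter_add_card_filter_not (s := Finset.range T) (fun j => D (ptn i m j) = true)
  rw [Finset.card_range] at h9
  unfold maj
  simp only [Nat.unpair_pair]
  rw [← hT]
  cases hb : β (Nat.pair i m)
  · apply decide_eq_false
    have e : ((Finset.range T).filter fun j => D (ptn i m j) ≠ β (Nat.pair i m)) =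
        (Finset.range T).filter fun j => D (ptn i m j) = true := by
      apply Finset.filter_congr
      intro j _
      rw [hb]
      simp
    rw [e] at h5
    omega
  · apply decide_eq_true
    have e : ((Finset.range T).filter fun j => D (ptn i m j) ≠ β (Nat.pair i m)) =
        (Finset.range T).filter fun j => ¬ D (ptn i m j) = true := by
      apply Finset.filter_congr
      intro j _
      rw [hb]
    rw [e] at h5
    omega

end Pool.Agent.CTI
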