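import Pool.Agent.Lib.SX.RdE
import Pool.Agent.Lib.SX.TrF
import Pool.Agent.Lib.CTI.Chc

/-!
# Itf: a name of a predicate which satisfies the conditions below `p` gives an `Idl K`
-/

set_option autoImplicit false

namespace Pool.Agent.CTI

open Pool.Agent.SX Pool.Agent.PolB Pool.Agent.Lib.BVM Pool.Agent.Mart
open scoped symmDiff

section

theorem rw_glue {B : Type} (u : ℕ → ℕ → B) (i : ℕ) : rw (glue u) i = u i := by
  funext m
  unfold rw glue
  rw [Nat.unpair_pair]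

variable {B : Type} [CompleteBooleanAlgebra B] {P : (ℕ → B) → B}

theorem id_tr (u v : ℕ → B) : idB P ⊓ (P v ⊓ trB u v) ≤ P u := by
  rw [← le_himp_iff]
  refine (iInf_le _ (glue fun i => if i = 0 then u else v)).trans ?_
  unfold idV
  rw [rw_glue, rw_glue]
  exact inf_le_left.trans (inf_le_left.trans inf_le_left)

theorem id_jn (u v : ℕ → B) : idB P ⊓ (P u ⊓ P v) ≤ P (jnB u v) := by
  rw [← le_himp_iff]
  refine (iInf_le _ (glue fun i => if i = 0 then u else v)).trans ?_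
  unfold idV
  rw [rw_glue, rw_glue]
  exact inf_le_left.trans (inf_le_left.trans inf_le_right)

theorem id_lim (f : ℕ → B) : idB P ≤ ⨆ D, P D ⊓ limB D f := by
  refine (iInf_le _ (glue fun _ => f)).trans ?_
  unfold idV
  simp only [rw_glue]
  exact inf_le_left.trans inf_le_right

theorem id_bd (u : ℕ → ℕ → B) : idB P ⊓ (⨅ i, P (u i)) ≤ ⨆ D, P D ⊓ ⨅ i, trB (u i) D := by
  rw [← le_himp_iff]
  refine (iInf_le _ (glue u)).trans ?_
  unfold idV
  simp only [rw_glue]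
  exact inf_le_right

/-- the chosen member with a given limit -/
theorem exists_lim (hP : Ext1 P) : ∃ F : (ℕ → B) → ℕ → B, ExtF F ∧ ∀ f, idB P ≤ P (F f) ⊓ limB (F f) f := by
  obtain ⟨F, hF, h⟩ := exists_choice (fun f D => P D ⊓ limB D f) (by
    intro f f' D D'
    refine le_of_forall_ult fun U hU => ?_
    simp only [U.inf_iff] at hU ⊢
    refine ⟨U.mono' (hP D D') (U.inf' hU.1.2 hU.2.1), U.mono' (limB_congr D D' f f') ?_⟩
    exact U.inf' (U.inf' hU.1.2 hU.1.1) hU.2.2)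
  exact ⟨F, hF, fun f => (id_lim f).trans (h f)⟩

end

variable {K : Type}

private theorem itf_cell {b b' : (K → Cs) → Cs} (hb : Continuous b) (hb' : Continuous b') (k k' : ℕ) (x : K → Cs) :
    ∃ c : PM K, (∀ y, b (ac c y) k = b x k) ∧ ∀ y, b' (ac c y) k' = b' x k' := by
  have h1 : IsOpen {y : K → Cs | b y k = b x k} :=
    (isOpen_discrete ({t | t = b x k} : Set Bool)).preimage ((continuous_apply k).comp hb)
  have h2 : IsOpen {y : K → Cs | b' y k' = b' x k'} :=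
    (isOpen_discrete ({t | t = b' x k'} : Set Bool)).preimage ((continuous_apply k').comp hb')
  obtain ⟨F, n, hF⟩ := open_nbhd (h1.inter h2) (x := x) ⟨rfl, rfl⟩
  have h3 : ∀ y : K → Cs, ∀ i ∈ F, Ag n (x i) (ac (cel F n x) y i) := by
    intro y i hi j hj
    show x i j = ((cel F n x).1 i).f (y i) j
    have h4 : (cel F n x).1 i = pfxM n (x i) := if_pos hi
    rw [h4]
    show x i j = if j < n then x i j else y i (j - n)
    rw [if_pos hj]
  exact ⟨cel F n x, fun y => (hF _ (h3 y)).1, fun y => (hF _ (h3 y)).2⟩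

private theorem itf_of_iff {h : PM K} {A A' : ℕ → BP K} {b b' : (K → Cs) → Cs} (hb : Continuous b)
    (hb' : Continuous b') (H : Rd h A b) (H' : Rd h A' b') {k k' : ℕ} (e : Ap h (A k ⇔ A' k')) (x : K → Cs) :
    b x k = b' x k' := by
  obtain ⟨c, h1, h2⟩ := itf_cell hb hb' k k' x
  have e1 : Ap (h * c) (A' k' ⇨ A k) := by
    have := ap_mul e c
    rw [bihimp] at this
    exact this.1
  have e2 : Ap (h * c) (A k ⇨ A' k') := by
    have := ap_mul e c
    rw [bihimp] at this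
    exact this.2
  rw [Ap_himp leP_refl leP_trans] at e1 e2
  cases hx : b x k <;> cases hx' : b' x k'
  · rfl
  · have h3 : Ap (h * c) (A k)ᶜ := (H c k).2 fun y => (h1 y).trans hx
    have h4 : Ap (h * c) (A' k') := (H' c k').1 fun y => (h2 y).trans hx'
    exact (ap_not_both (e1 _ (leP_refl _) h4) h3).elim
  · have h3 : Ap (h * c) (A k) := (H c k).1 fun y => (h1 y).trans hx
    have h4 : Ap (h * c) (A' k')ᶜ := (H' c k').2 fun y => (h2 y).trans hx'
    exact (ap_not_both (e2 _ (leP_refl _) h3) h4).elim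
  · rfl

theorem lim_of_ap {h : PM K} {D f : ℕ → BP K} {b a : (K → Cs) → Cs} (hb : Continuous b) (ha : Continuous a)
    (H : Rd h D b) (H' : Rd h f a) (hl : Ap h (limB D f)) : ∃ k, ∀ x, Lim (b (ac k x)) (a (ac k x)) := by
  have hl' : ∀ n, Ap h (⨆ s, ⨅ t, (D (Nat.pair n (s + t)) ⇔ f n)) :=
    (Ap_iInf leP_refl leP_trans _ _).1 hl
  obtain ⟨k, hk⟩ := fus_below (fun n (k : PM K) => ∃ s, ∀ t x, b (ac k x) (Nat.pair n (s + t)) = a (ac k x) n) 1 (by
    intro n k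
    obtain ⟨k1, s, hs⟩ := ap_iSup (ap_mul (hl' n) (1 * k))
    have hs' := (Ap_iInf leP_refl leP_trans _ _).1 hs
    refine ⟨k1, s, fun t x => ?_⟩
    have hg : h * (1 * k) * k1 = h * (1 * k * k1) := by simp only [mul_assoc]
    rw [hg] at hs'
    exact itf_of_iff (hb.comp (continuous_ac (1 * k * k1))) (ha.comp (continuous_ac (1 * k * k1)))
      (H.mul (1 * k * k1)) (H'.mul (1 * k * k1)) (hs' t) x) (by
    rintro n k k' ⟨s, hs⟩
    exact ⟨s, fun t x => hs t (ac k' x)⟩)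
  refine ⟨k, fun x n => ?_⟩
  obtain ⟨F, m, hF⟩ := hk n
  obtain ⟨s, hs⟩ := hF x
  obtain ⟨z, hz⟩ := mem_cel.2 (fun i (_ : i ∈ F) => Ag.refl m (x i))
  refine ⟨s, fun t => ?_⟩
  have h1 := hs t z
  rw [one_mul, ac_mul, hz] at h1
  exact h1

private theorem itf_eqv_symm {B : Type} [CompleteBooleanAlgebra B] (u v : ℕ → B) :
    Pool.Agent.SX.eqv u v = Pool.Agent.SX.eqv v u := by
  unfold Pool.Agent.SX.eqv
  exact iInf_congr fun k => bihimp_comm _ _

/-- the name of the restricted function and the restricted name -/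
private theorem itf_nm (h k : PM K) {a : (K → Cs) → Cs} (ha : Continuous a) :
    Ap (h * k) (eqv (nm h a) (nm (h * k) (a ∘ ac k))) :=
  Rd.eqv (ha.comp (continuous_ac k)) ((rd_nm h ha).mul k) (rd_nm (h * k) (ha.comp (continuous_ac k)))

private theorem itf_F {F : (ℕ → BP K) → ℕ → BP K} (hF : ExtF F) (h k : PM K) {a : (K → Cs) → Cs}
    (ha : Continuous a) : Ap (h * k) (eqv (F (nm h a)) (F (nm (h * k) (a ∘ ac k)))) :=
  le_iff_Ap.1 (hF.eqv_le _ _) _ (itf_nm h k ha)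

private theorem itf_tr {h : PM K} {u u' v : ℕ → BP K} (he : Ap h (eqv u u')) (ht : Ap h (trB u v)) :
    Ap h (trB u' v) := by
  have h1 : Ap h (eqv v v) := by
    rw [eqv_refl]
    exact Ap_top _
  exact le_iff_Ap.1 (trB_congr u u' v v) h ((Ap_inf _ _ _).2 ⟨(Ap_inf _ _ _).2 ⟨he, h1⟩, ht⟩)

private theorem itf_jn {h : PM K} {D D' : ℕ → BP K} {b b' : (K → Cs) → Cs} (H : Rd h D b) (H' : Rd h D' b') :
    Rd h (jnB D D') (fun x => bjoin (b x) (b' x)) := by
  intro k n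
  unfold jnB bjoin
  by_cases hn : n % 2 = 0
  · simp only [if_pos hn]
    exact H k (n / 2)
  · simp only [if_neg hn]
    exact H' k (n / 2)

private theorem itf_bj {a b : (K → Cs) → Cs} (ha : Continuous a) (hb : Continuous b) :
    Continuous fun x => bjoin (a x) (b x) := by
  refine continuous_pi fun n => ?_
  unfold bjoin
  by_cases h : n % 2 = 0
  · simp only [if_pos h]
    exact (continuous_apply _).comp ha
  · simp only [if_neg h]
    exact (continuous_apply _).comp hb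

private theorem itf_le {q : PM K} {a b : BP K} (h : a ≤ b) (ha : Ap q a) : Ap q b := le_iff_Ap.1 h q ha

private theorem itf_inf {q : PM K} {a b : BP K} (ha : Ap q a) (hb : Ap q b) : Ap q (a ⊓ b) :=
  (Ap_inf q a b).2 ⟨ha, hb⟩

private theorem itf_P {P : (ℕ → BP K) → BP K} {F : (ℕ → BP K) → ℕ → BP K}
    (hF2 : ∀ f, idB P ≤ P (F f) ⊓ limB (F f) f) {q : PM K} (hq : Ap q (idB P)) (f : ℕ → BP K) :
    Ap q (P (F f)) ∧ Ap q (limB (F f) f) :=
  (Ap_inf q _ _).1 (le_iff_Ap.1 (hF2 f) q hq)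

def MemC (P : (ℕ → BP K) → BP K) (p h : PM K) (b : (K → Cs) → Cs) : Prop :=
  Continuous b ∧ ∃ D, Rd (p * h) D b ∧ Ap (p * h) (P D)

def V0C (F : (ℕ → BP K) → ℕ → BP K) (p h : PM K) (a b : (K → Cs) → Cs) : Prop :=
  Continuous a ∧ Continuous b ∧ Rd (p * h) (F (nm (p * h) a)) b

def V1C (P : (ℕ → BP K) → BP K) (F : (ℕ → BP K) → ℕ → BP K) (p h : PM K) (z : (K → Cs) → ℕ → Cs)
    (b : (K → Cs) → Cs) : Prop :=
  Continuous z ∧ Continuous b ∧ ∃ D, Rd (p * h) D b ∧ Ap (p * h) (P D) ∧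
    ∀ n, Ap (p * h) (trB (F (nm (p * h) fun x => z x n)) D)

section
variable {P : (ℕ → BP K) → BP K} {F : (ℕ → BP K) → ℕ → BP K} {p h : PM K}

theorem exC0 (hF : ExtF F) (p h : PM K) {a : (K → Cs) → Cs} (ha : Continuous a) :
    ∃ k b, V0C F p (h * k) (a ∘ ac k) b := by
  obtain ⟨k, b, hb, H⟩ := exists_rd (p * h) (F (nm (p * h) a))
  refine ⟨k, b, ha.comp (continuous_ac k), hb, ?_⟩
  rw [← mul_assoc]
  exact eqv_ext hF (itf_nm (p * h) k ha) H

theorem trC (hF : ExtF F) (q k : PM K) {z : (K → Cs) → ℕ → Cs} (hz : Continuous z) (n : ℕ) {D : ℕ → BP K}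
    (h5 : Ap (q * k) (trB (F (nm q fun x => z x n)) D)) :
    Ap (q * k) (trB (F (nm (q * k) fun x => (z ∘ ac k) x n)) D) := by
  have hzn : Continuous fun x => z x n := (continuous_apply n).comp hz
  have h6 := itf_F hF q k hzn
  exact itf_tr h6 h5

theorem exC1 (hF : ExtF F) (hF2 : ∀ f, idB P ≤ P (F f) ⊓ limB (F f) f) (hp : Ap p (idB P)) (h : PM K)
    {z : (K → Cs) → ℕ → Cs} (hz : Continuous z) : ∃ k b, V1C P F p (h * k) (z ∘ ac k) b := by
  have hp' : Ap (p * h) (idB P) := ap_mul hp h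
  have h1 : Ap (p * h) (⨅ n, P (F (nm (p * h) fun x => z x n))) :=
    (Ap_iInf leP_refl leP_trans _ _).2 fun n => (itf_P hF2 hp' (nm (p * h) fun x => z x n)).1
  have h2 := itf_le (id_bd (P := P) fun n => F (nm (p * h) fun x => z x n)) (itf_inf hp' h1)
  obtain ⟨k1, D, hD0⟩ := ap_iSup h2
  obtain ⟨hD1, hD2⟩ := (Ap_inf _ _ _).1 hD0
  have hD3 := (Ap_iInf leP_refl leP_trans _ _).1 hD2
  obtain ⟨k2, b, hb, H⟩ := exists_rd (p * h * k1) D
  have e : p * (h * (k1 * k2)) = p * h * (k1 * k2) := by simp only [mul_assoc]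
  have e' : p * h * k1 * k2 = p * h * (k1 * k2) := by simp only [mul_assoc]
  refine ⟨k1 * k2, b, hz.comp (continuous_ac _), hb, D, ?_, ?_, fun n => ?_⟩
  · rw [e, ← e']
    exact H
  · rw [e, ← e']
    exact ap_mul hD1 k2
  · rw [e]
    refine trC hF (p * h) (k1 * k2) hz n ?_
    rw [← e']
    exact ap_mul (hD3 n) k2

theorem resC0 (hF : ExtF F) {a b : (K → Cs) → Cs} (H : V0C F p h a b) (k : PM K) :
    V0C F p (h * k) (a ∘ ac k) (b ∘ ac k) := by
  refine ⟨H.1.comp (continuous_ac k), H.2.1.comp (continuous_ac k), ?_⟩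
  rw [← mul_assoc]
  exact eqv_ext hF (itf_nm _ k H.1) (H.2.2.mul k)

theorem resC1 (hF : ExtF F) {z : (K → Cs) → ℕ → Cs} {b : (K → Cs) → Cs} (H : V1C P F p h z b) (k : PM K) :
    V1C P F p (h * k) (z ∘ ac k) (b ∘ ac k) := by
  obtain ⟨h1, h2, D, h3, h4, h5⟩ := H
  refine ⟨h1.comp (continuous_ac k), h2.comp (continuous_ac k), D, ?_, ?_, fun n => ?_⟩
  · rw [← mul_assoc]
    exact h3.mul k
  · rw [← mul_assoc]
    exact ap_mul h4 k
  · rw [← mul_assoc]
    exact trC hF (p * h) k h1 n (ap_mul (h5 n) k)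

theorem resCM {b : (K → Cs) → Cs} (H : MemC P p h b) (k : PM K) : MemC P p (h * k) (b ∘ ac k) := by
  obtain ⟨h1, D, h2, h3⟩ := H
  refine ⟨h1.comp (continuous_ac k), D, ?_, ?_⟩
  · rw [← mul_assoc]
    exact h2.mul k
  · rw [← mul_assoc]
    exact ap_mul h3 k

theorem leC {a : (K → Cs) → Cs} {z : (K → Cs) → ℕ → Cs} {b b' : (K → Cs) → Cs} (H : V0C F p h a b)
    (H' : V1C P F p h z b') (e : ∃ n, ∀ x, a x = z x n) : ∃ k, ∀ x, TR (b (ac k x)) (b' (ac k x)) := by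
  obtain ⟨-, h1, h2⟩ := H
  obtain ⟨-, h3, D, h4, -, h5⟩ := H'
  obtain ⟨n, hn⟩ := e
  have e : a = fun x => z x n := funext hn
  subst e
  exact tr_of_ap h1 h3 h2 h4 (h5 n)

theorem limC (hF2 : ∀ f, idB P ≤ P (F f) ⊓ limB (F f) f) (hp : Ap p (idB P)) {a b : (K → Cs) → Cs}
    (H : V0C F p h a b) : ∃ k, ∀ x, Lim (b (ac k x)) (a (ac k x)) := by
  obtain ⟨h1, h2, h3⟩ := H
  exact lim_of_ap h2 h1 h3 (rd_nm _ h1) (itf_P hF2 (ap_mul hp h) (nm (p * h) a)).2

theorem memC1 {z : (K → Cs) → ℕ → Cs} {b : (K → Cs) → Cs} (H : V1C P F p h z b) : MemC P p h b := by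
  obtain ⟨-, h1, D, h2, h3, -⟩ := H
  exact ⟨h1, D, h2, h3⟩

theorem memCJ (hp : Ap p (idB P)) {b b' : (K → Cs) → Cs} (H : MemC P p h b) (H' : MemC P p h b') :
    MemC P p h (fun x => bjoin (b x) (b' x)) := by
  obtain ⟨h1, D, h2, h3⟩ := H
  obtain ⟨h1', D', h2', h3'⟩ := H'
  exact ⟨itf_bj h1 h1', jnB D D', itf_jn h2 h2',
    itf_le (id_jn (P := P) D D') (itf_inf (ap_mul hp h) (itf_inf h3 h3'))⟩

theorem memCL (hp : Ap p (idB P)) {a b : (K → Cs) → Cs} (H : MemC P p h b) (ha : Continuous a)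
    (ht : ∀ x, TR (a x) (b x)) : MemC P p h a := by
  obtain ⟨h1, D, h2, h3⟩ := H
  have h4 : Rd (p * h) (nm (p * h) a) a := rd_nm (p * h) ha
  have h5 : Ap (p * h) (trB (nm (p * h) a) D) := ap_of_tr ha h1 h4 h2 ht
  exact ⟨ha, nm (p * h) a, h4, itf_le (id_tr (P := P) (nm (p * h) a) D)
    (itf_inf (ap_mul hp h) (itf_inf h3 h5))⟩

/-- the interface -/
def idlC (hF : ExtF F) (hF2 : ∀ f, idB P ≤ P (F f) ⊓ limB (F f) f) (hp : Ap p (idB P)) : Idl K where
  Mem := MemC P p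
  V0 := V0C F p
  V1 := V1C P F p
  cont0 H := H.2.1
  cont1 H := H.2.1
  ex0 h _ ha := exC0 hF p h ha
  ex1 h _ hz := exC1 hF hF2 hp h hz
  res0 H k := resC0 hF H k
  res1 H k := resC1 hF H k
  resM H k := resCM H k
  le01 := leC
  lim0 := limC hF2 hp
  mem1 := memC1
  memJ := memCJ hp
  memL := memCL hp

end

end Pool.Agent.CTI
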