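import Pool.Agent.Lib.SX.SDefs
import Pool.Agent.Lib.SX.LDefs
import Pool.Agent.Lib.CTI.Defs

/-!
# SDefI: supplies of isomorphic conditions for the interface `Idl`, definitions

`tp`, `rt`, `Apart`, `LTy` are those of `SX`.
-/

set_option autoImplicit false

namespace Pool.Agent.CTI

open Pool.Agent.SX Pool.Agent.Mart Cardinal

variable {K : Type}

/-- `j` is a good copy: the value at the point `j 0` below the condition `tp j T` is `g`, read through `j` -/
structure Good (V : Idl K) (T : ℕ → SM) (g : (ℕ → Cs) → Cs) (R : Set ℕ) (ρ : ℕ → K) (j : ℕ → K) : Prop where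
  inj : Function.Injective j
  root : ∀ n ∈ R, j n = ρ n
  val : V.V0 (tp j T) (rl (tp j T) (j 0)) (fun x => g fun n => x (j n))

/-- a level 1 object read through `j`: `hd l` is the position of the point number `l`; `cl l` is its value, `v` the
value of the sequence -/
structure Good1 (V : Idl K) (T : ℕ → SM) (hd : ℕ → ℕ) (cl : ℕ → (ℕ → Cs) → Cs) (v : (ℕ → Cs) → Cs)
    (R : Set ℕ) (ρ : ℕ → K) (j : ℕ → K) : Prop where
  inj : Function.Injective j
  root : ∀ n ∈ R, j n = ρ n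
  val0 : ∀ l, V.V0 (tp j T) (rl (tp j T) (j (hd l))) (fun x => cl l fun n => x (j n))
  val1 : V.V1 (tp j T) (fun x l => rl (tp j T) (j (hd l)) x) (fun x => v fun n => x (j n))

/-- `j` is an object of type `t` over the set `Z` -/
structure LObj (V : Idl K) (g : (ℕ → Cs) → Cs) (R0 : Set ℕ) (ρ0 : ℕ → K) (Z : Set K) (t : LTy) (j : ℕ → K) :
    Prop where
  inj : Function.Injective j
  val0 : ∀ l, V.V0 (tp j t.T) (rl (tp j t.T) (j (t.pos l 0))) (fun x => t.cl g l fun n => x (j n))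
  val1 : V.V1 (tp j t.T) (fun x l => rl (tp j t.T) (j (t.pos l 0)) x) (fun x => t.v fun n => x (j n))
  idx : ∀ l y, Idx (t.v y) (t.e l y) (t.cl g l y)
  new : ∀ l n, n ∉ R0 → j (t.pos l n) ∉ Z
  root : ∀ l, ∀ n ∈ R0, j (t.pos l n) = ρ0 n
  dis : ∀ l l' n n', n ∉ R0 → l ≠ l' → t.pos l n ≠ t.pos l' n'

/-- the interface below the condition `h` -/
def Idl.rel (V : Idl K) (h : PM K) : Idl K where
  Mem k b := V.Mem (h * k) b
  V0 k a b := V.V0 (h * k) a b
  V1 k a b := V.V1 (h * k) a b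
  cont0 hv := V.cont0 hv
  cont1 hv := V.cont1 hv
  ex0 k a ha := by
    obtain ⟨k', b, hb⟩ := V.ex0 (h * k) a ha
    exact ⟨k', b, by rw [← mul_assoc]; exact hb⟩
  ex1 k a ha := by
    obtain ⟨k', b, hb⟩ := V.ex1 (h * k) a ha
    exact ⟨k', b, by rw [← mul_assoc]; exact hb⟩
  res0 hv k' := by rw [← mul_assoc]; exact V.res0 hv k'
  res1 hv k' := by rw [← mul_assoc]; exact V.res1 hv k'
  resM hv k' := by rw [← mul_assoc]; exact V.resM hv k'
  le01 h1 h2 h3 := V.le01 h1 h2 h3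
  lim0 h1 := V.lim0 h1
  mem1 h1 := V.mem1 h1
  memJ h1 h2 := V.memJ h1 h2
  memL h1 h2 h3 := V.memL h1 h2 h3

end Pool.Agent.CTI
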