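import Pool.Agent.Lib.SX.M.Tur
import Pool.Agent.Lib.SX.M.Ord
import Pool.Agent.Lib.CTI.AbsJD

/-!
# LB: local operators on names of reals
-/

set_option autoImplicit false
universe u

namespace Pool.Agent.CTI

open Pool.Agent.SX Pool.Agent.Mart Pool.Agent.Lib.BVM
open scoped symmDiff

variable {B : Type u} [CompleteBooleanAlgebra B]

theorem fin_iSup_iff (W : Ult B) {ι : Type*} [Finite ι] (f : ι → B) : W.S (⨆ i, f i) ↔ ∃ i, W.S (f i) := by
  constructor
  · intro h
    by_contra hn
    push Not at hn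
    obtain ⟨t, ⟨e⟩⟩ := Finite.exists_equiv_fin ι
    have h1 : W.S (⨅ k : Fin t, (f (e.symm k))ᶜ) := (fin_iInf_iff W _).2 fun k => W.compl'.2 (hn _)
    rw [← compl_iSup, W.compl'] at h1
    apply h1
    rwa [e.symm.iSup_comp (g := f)]
  · rintro ⟨i, hi⟩
    exact W.mono' (le_iSup f i) hi

/-- extension of a finite sequence by `false` -/
def ext0 {N : ℕ} (y : Fin N → Bool) : Cs := fun k => if h : k < N then y ⟨k, h⟩ else false

/-- a local operator on names -/
noncomputable def LB {Φ : Cs → Cs} (hΦ : Loc Φ) (u : ℕ → B) : ℕ → B := fun n =>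
  ⨆ y : {y : Fin (hΦ n).choose → Bool // Φ (ext0 y) n = true}, ⨅ k : Fin (hΦ n).choose, lit (u k) (y.1 k)

theorem rea_LB (W : Ult B) {Φ : Cs → Cs} (hΦ : Loc Φ) (u : ℕ → B) : rea W (LB hΦ u) = Φ (rea W u) := by
  funext n
  have hs := (hΦ n).choose_spec
  have key : rea W (LB hΦ u) n = true ↔ Φ (rea W u) n = true := by
    rw [rea_iff]
    unfold LB
    rw [fin_iSup_iff]
    constructor
    · rintro ⟨y, hy⟩
      rw [fin_iInf_iff] at hy
      rw [hs (rea W u) (ext0 y.1) fun k hk => ?_]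
      · exact y.2
      · unfold ext0
        rw [dif_pos hk]
        exact (lit_iff W u k _).1 (hy ⟨k, hk⟩)
    · intro h
      have h1 : Φ (ext0 fun k : Fin (hΦ n).choose => rea W u k) n = true := by
        rw [← h]
        refine hs _ _ fun k hk => ?_
        unfold ext0
        rw [dif_pos hk]
      refine ⟨⟨_, h1⟩, ?_⟩
      rw [fin_iInf_iff]
      exact fun k => (lit_iff W u k _).2 rfl
  cases h1 : rea W (LB hΦ u) n <;> cases h2 : Φ (rea W u) n <;> simp_all

theorem eq_of_rea {a b : ℕ → B} (h : ∀ U : Ult B, rea U a = rea U b) : a = b := by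
  funext n
  apply le_antisymm
  · refine le_of_forall_ult fun U hU => ?_
    rw [← rea_iff] at hU ⊢
    rwa [← h U]
  · refine le_of_forall_ult fun U hU => ?_
    rw [← rea_iff] at hU ⊢
    rwa [h U]

theorem rea_rw (W : Ult B) (u : ℕ → B) (i : ℕ) : rea W (rw u i) = row i (rea W u) := rfl

theorem rea_jnB (W : Ult B) (u v : ℕ → B) : rea W (jnB u v) = bjoin (rea W u) (rea W v) := by
  funext n
  have key : rea W (jnB u v) n = true ↔ bjoin (rea W u) (rea W v) n = true := by
    rw [rea_iff]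
    unfold jnB bjoin
    split_ifs with h
    · rw [rea_iff]
    · rw [rea_iff]
  cases h1 : rea W (jnB u v) n <;> cases h2 : bjoin (rea W u) (rea W v) n <;> simp_all

theorem LB_row (u : ℕ → B) (i : ℕ) : LB (loc_op (.row i)) u = rw u i :=
  eq_of_rea fun U => by rw [rea_LB, rea_rw]; rfl

theorem LB_j01 (u : ℕ → B) : LB (loc_op .j01) u = jnB (rw u 0) (rw u 1) :=
  eq_of_rea fun U => by rw [rea_LB, rea_jnB, rea_rw, rea_rw]; rfl

end Pool.Agent.CTI
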