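import Pool.Agent.Lib.CTI.NiC
import Pool.Agent.Lib.SX.M.Elm
import Pool.Agent.Lib.SX.M.Asm
import Pool.Agent.Lib.PolB.Fml

/-!
# Mod: the model; statement for a structure `(M, E)`; every Turing ideal of the model which generates a closed
subspace contains all reals
-/

set_option autoImplicit false

namespace Pool.Agent.CTI

open Pool.Agent.SX Pool.Agent.Mart Pool.Agent.Lib.BVM Pool.Agent.Lib.BVM.BSet Pool.Agent.PolB
open scoped symmDiff

section
variable {M : Type*} (E : M → M → Prop)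

/-- the natural numbers in the set `x` -/
def Nset (x : M) : Set ℕ := {n | ∃ k, IsNum E n k ∧ E k x}

/-- `x` is a subset of `w` -/
def SubW (w x : M) : Prop := ∀ z, E z x → E z w

/-- the join of two sets of natural numbers -/
def setJoin (A B : Set ℕ) : Set ℕ := {n | (n % 2 = 0 ∧ n / 2 ∈ A) ∨ (n % 2 = 1 ∧ n / 2 ∈ B)}

/-- `U` is a Turing ideal -/
def IsTuringIdeal (w U : M) : Prop :=
  (∀ x, E x U → SubW E w x) ∧ (∃ x, E x U) ∧
  (∀ x y, SubW E w x → E y U → SetTR (Nset E x) (Nset E y) → E x U) ∧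
  ∀ x y z, E x U → E y U → SubW E w z → Nset E z = setJoin (Nset E x) (Nset E y) → E z U

/-- the subspace generated by `U` is closed: every set which is a limit of members of `U` is coarsely similar
to a member of `U` -/
def IsClosedSub (w U : M) : Prop :=
  ∀ x, SubW E w x →
    (∀ ε : ℝ, 0 < ε → ∃ y, E y U ∧ upperDensity (symmDiff (Nset E x) (Nset E y)) < ε) →
    ∃ y, E y U ∧ CoarselySimilar (Nset E x) (Nset E y)

end

theorem setTR_st (x y : Cs) : SetTR (st x) (st y) ↔ TR x y := by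
  classical
  have h1 : ∀ c : Cs, (fun n => Part.some (if n ∈ st c then 1 else 0) : ℕ →. ℕ) = orc c := by
    intro c
    funext n
    show Part.some _ = Part.some (c n).toNat
    congr 1
    unfold st
    cases h : c n <;> simp [h]
  have h2 : SetTR (st x) (st y) ↔ TuringReducible (orc x) (orc y) := by
    rw [← h1 x, ← h1 y]
    unfold SetTR
    convert Iff.rfl
  rw [h2]
  exact RecursiveIn.iff_nat

theorem st_bjoin (x y : Cs) : st (bjoin x y) = setJoin (st x) (st y) := by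
  ext n
  unfold st setJoin bjoin
  simp only [Set.mem_ofPred_eq]
  by_cases h : n % 2 = 0
  · rw [if_pos h]
    constructor
    · intro h1
      exact Or.inl ⟨h, h1⟩
    · rintro (⟨-, h1⟩ | ⟨h2, -⟩)
      · exact h1
      · omega
  · rw [if_neg h]
    constructor
    · intro h1
      exact Or.inr ⟨by omega, h1⟩
    · rintro (⟨h2, -⟩ | ⟨-, h1⟩)
      · exact absurd h2 h
      · exact h1

variable {B : Type} [CompleteBooleanAlgebra B]

section
variable {W : Ult B} {N : Set (BSet B)} (h : Nice2 W N)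
include h

theorem Nice2.tv : TV W.E (W.cls '' N) := by
  intro φ v hv hx
  choose w hw hw2 using hv
  have hv2 : v = fun i => W.cls (w i) := funext fun i => (hw2 i).symm
  obtain ⟨x, hx⟩ := hx
  obtain ⟨y, rfl⟩ := W.exists_cls x
  have e : ∀ y : BSet B, scons (W.cls y) v = fun i => W.cls (scons y w i) := by
    intro y
    funext i
    cases i with
    | zero => rfl
    | succ i => exact (hw2 i).symm
  rw [e, W.los] at hx
  obtain ⟨x0, hx0, hx1⟩ := h.wit φ w hw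
  refine ⟨W.cls x0, ⟨x0, hx0, rfl⟩, ?_⟩
  rw [e, W.los, hx1]
  exact W.mono' (le_iSup (fun y => bval φ (scons y w)) y) hx

theorem Nice2.zfc : IsZFC (Me W N) :=
  isZFC_sub h.tv ⟨W.cls (chkAll B ℕ), chkAll B ℕ, h.om, rfl⟩ W.isZFC

theorem Nice2.isNum (n : ℕ) (m : Md W N) : IsNum (Me W N) n m ↔ m = el (chk B n) (h.nat n) := by
  induction n generalizing m with
  | zero =>
    have h0 : ∀ z, ¬ Me W N z (el (chk B (0 : ℕ)) (h.nat 0)) := by
      intro z hz
      obtain ⟨x, hx, rfl⟩ := ex_el z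
      rw [el_mem, bMem_chk_zero] at hz
      exact W.bot' hz
    constructor
    · intro h1
      exact h.zfc.extensionality _ _ fun z => ⟨fun hz => absurd hz (h1 z), fun hz => absurd hz (h0 z)⟩
    · rintro rfl
      exact h0
  | succ n ih =>
    have h0 : ∀ z, Me W N z (el (chk B (n + 1)) (h.nat (n + 1))) ↔
        Me W N z (el (chk B n) (h.nat n)) ∨ z = el (chk B n) (h.nat n) := by
      intro z
      obtain ⟨x, hx, rfl⟩ := ex_el z
      rw [el_mem, el_mem, el_eq, bMem_chk_succ, W.sup_iff]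
    constructor
    · rintro ⟨y, hy, hz⟩
      rw [ih] at hy
      subst hy
      exact h.zfc.extensionality _ _ fun z => (hz z).trans (h0 z).symm
    · rintro rfl
      exact ⟨_, (ih _).2 rfl, h0⟩

theorem Nice2.mem_om {x : BSet B} (hx : x ∈ N) :
    Me W N (el x hx) (el (chkAll B ℕ) h.om) ↔ ∃ n : ℕ, W.S (bEq x (chk B n)) := by
  rw [el_mem, bMem_chkAll]
  constructor
  · exact h.sup1 x hx
  · rintro ⟨n, hn⟩
    exact W.mono' (le_iSup (fun n : ℕ => bEq x (chk B n)) n) hn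

theorem Nice2.std : IsStdOmega (Me W N) (el (chkAll B ℕ) h.om) := by
  intro x
  obtain ⟨a, ha, rfl⟩ := ex_el x
  rw [h.mem_om ha]
  simp only [h.isNum, el_eq]

/-- the natural numbers in an element of the model -/
theorem Nice2.nset {x : BSet B} (hx : x ∈ N) : Nset (Me W N) (el x hx) = st (rea W (rv x)) := by
  ext n
  show (∃ k, IsNum (Me W N) n k ∧ Me W N k (el x hx)) ↔ rea W (rv x) n = true
  rw [rea_iff]
  simp only [h.isNum, exists_eq_left]
  exact Iff.rfl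

theorem Nice2.sub_rn {a : BSet B} (ha : a ∈ N) : SubW (Me W N) (el (chkAll B ℕ) h.om) (el (rn (rv a)) (h.rr a ha)) := by
  intro z hz
  obtain ⟨c, hc, rfl⟩ := ex_el z
  rw [el_mem] at hz
  rw [el_mem, bMem_chkAll]
  refine W.mono' ?_ hz
  have h1 : rn (rv a) = BSet.mk ℕ (fun n => chk B n) (rv a) := rfl
  rw [h1, bMem_mk]
  exact iSup_mono fun n => inf_le_right

/-- a subset of `ω` is equal to the set with the same natural numbers -/
theorem Nice2.eq_rn {a : BSet B} (ha : a ∈ N) (hs : SubW (Me W N) (el (chkAll B ℕ) h.om) (el a ha)) :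
    W.S (bEq a (rn (rv a))) := by
  have h1 : sat (Me W N) (.all (.imp (.mem 0 1) (.mem 0 2)))
      (scons (el a ha) (scons (el (chkAll B ℕ) h.om) fun _ => el a ha)) := hs
  have h2 : (fun i => ((scons (el a ha) (scons (el (chkAll B ℕ) h.om) fun _ => el a ha) i : Md W N)).1) =
      fun i => W.cls (scons a (scons (chkAll B ℕ) fun _ => a) i) := by
    funext i
    match i with
    | 0 => rfl
    | 1 => rfl
    | _ + 2 => rfl
  rw [sat_sub h.tv, h2, W.los] at h1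
  refine W.mono' ?_ h1
  show (⨅ z, (bMem z a ⇨ bMem z (chkAll B ℕ))) ≤ bEq a (rn (rv a))
  rw [bEq_eq_iInf]
  refine le_iInf fun z => le_of_forall_ult fun U hU => ?_
  rw [U.inf_iff, U.himp_iff, U.himp_iff]
  have e1 : ∀ n : ℕ, bMem (chk B n) (rn (rv a)) = bMem (chk B n) a := fun n => congrFun (rv_rn (rv a)) n
  have key : ∀ x y : BSet B, (∀ n : ℕ, bMem (chk B n) x = bMem (chk B n) y) → U.S (bMem z (chkAll B ℕ)) →
      U.S (bMem z x) → U.S (bMem z y) := by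
    intro x y hxy h1 h2
    rw [bMem_chkAll] at h1
    refine U.mono' ?_ (U.inf' h2 h1)
    rw [inf_iSup_eq]
    refine iSup_le fun n => ?_
    have h3 : bMem z x ⊓ bEq z (chk B n) ≤ bEq (chk B n) z ⊓ bMem (chk B n) y := by
      refine le_inf (by rw [bEq_symm]; exact inf_le_right) ?_
      rw [← hxy n, inf_comm]
      exact bMem_congr_left _ _ _
    exact h3.trans (bMem_congr_left _ _ _)
  constructor
  · intro h3
    have h4 := U.mono' (iInf_le _ z) hU
    rw [U.himp_iff] at h4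
    exact key _ _ (fun n => (e1 n).symm) (h4 h3) h3
  · intro h3
    refine key _ _ e1 ?_ h3
    rw [bMem_chkAll]
    refine U.mono' ?_ h3
    have h1 : rn (rv a) = BSet.mk ℕ (fun n => chk B n) (rv a) := rfl
    rw [h1, bMem_mk]
    exact iSup_mono fun n => inf_le_right

/-- membership in a set of reals, for subsets of `ω` -/
theorem Nice2.mem_iff {a f : BSet B} (ha : a ∈ N) (hf : f ∈ N)
    (hs : SubW (Me W N) (el (chkAll B ℕ) h.om) (el a ha)) :
    Me W N (el a ha) (el f hf) ↔ W.S (Pf f (rv a)) := by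
  rw [el_mem]
  have h1 := h.eq_rn ha hs
  constructor
  · intro h2
    exact W.mono' (bMem_congr_left _ _ _) (W.inf' h1 h2)
  · intro h2
    rw [bEq_symm] at h1
    exact W.mono' (bMem_congr_left _ _ _) (W.inf' h1 h2)

theorem Nice2.mem_rn {a f : BSet B} (ha : a ∈ N) (hf : f ∈ N) :
    Me W N (el (rn (rv a)) (h.rr a ha)) (el f hf) ↔ W.S (Pf f (rv a)) := Iff.rfl

theorem Nice2.nset_rn {a : BSet B} (ha : a ∈ N) :
    Nset (Me W N) (el (rn (rv a)) (h.rr a ha)) = st (rea W (rv a)) := by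
  rw [h.nset, rv_rn]

/-- equal reals have names which are equal -/
theorem Nice2.eqv_of_rea {a b : BSet B} (ha : a ∈ N) (hb : b ∈ N) (e : rea W (rv a) = rea W (rv b)) :
    W.S (eqv (rv a) (rv b)) := by
  by_contra h1
  have h2 : W.S (⨆ n, (rv a n ⇔ rv b n)ᶜ) := by
    rw [← compl_iInf]
    exact W.compl'.2 h1
  obtain ⟨n, hn⟩ := h.sup3 a ha b hb h2
  refine W.compl'.1 hn ?_
  rw [bih_iff, ← rea_iff, ← rea_iff, e]

omit h in
theorem Pf_iff (f : BSet B) {u v : ℕ → B} (e : W.S (eqv u v)) : W.S (Pf f u) ↔ W.S (Pf f v) := by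
  constructor
  · intro h1
    exact W.mono' (Pf_ext f u v) (W.inf' e h1)
  · intro h1
    rw [eqv_symm] at e
    exact W.mono' (Pf_ext f v u) (W.inf' e h1)

/-- the reals of the model -/
def Rs (W : Ult B) (N : Set (BSet B)) : Set Cs := {r | ∃ a ∈ N, rea W (rv a) = r}

/-- the reals of the model in the set with name `f` -/
def Ss (W : Ult B) (N : Set (BSet B)) (f : BSet B) : Set Cs := {r | ∃ a ∈ N, rea W (rv a) = r ∧ W.S (Pf f (rv a))}

theorem Nice2.mem_Ss {f a : BSet B} (ha : a ∈ N) (hs : rea W (rv a) ∈ Ss W N f) : W.S (Pf f (rv a)) := by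
  obtain ⟨b, hb, e, h1⟩ := hs
  exact (Pf_iff f (h.eqv_of_rea hb ha e)).1 h1

theorem Nice2.closedIdeal {f : BSet B} (hf : f ∈ N)
    (hI : IsTuringIdeal (Me W N) (el (chkAll B ℕ) h.om) (el f hf))
    (hC : IsClosedSub (Me W N) (el (chkAll B ℕ) h.om) (el f hf)) : ClosedIdeal (Rs W N) (Ss W N f) := by
  obtain ⟨i1, i2, i3, i4⟩ := hI
  -- members of the set
  have key : ∀ m : Md W N, Me W N m (el f hf) → ∃ (b : BSet B) (hb : b ∈ N), m = el b hb ∧ W.S (Pf f (rv b)) := by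
    intro m hm
    obtain ⟨b, hb, rfl⟩ := ex_el m
    exact ⟨b, hb, rfl, (h.mem_iff hb hf (i1 _ hm)).1 hm⟩
  refine ⟨?_, ?_, ?_, ?_, ?_, ?_⟩
  · rintro o _ ⟨a, ha, rfl⟩
    refine ⟨_, h.op o a ha, ?_⟩
    rw [rv_rn, rea_LB]
  · rintro _ ⟨a, ha, rfl, -⟩
    exact ⟨a, ha, rfl⟩
  · obtain ⟨m, hm⟩ := i2
    obtain ⟨b, hb, -, h1⟩ := key m hm
    exact ⟨_, b, hb, rfl, h1⟩
  · rintro _ ⟨a, ha, rfl⟩ _ ⟨b, hb, rfl, h1⟩ ht
    refine ⟨a, ha, rfl, ?_⟩
    refine (h.mem_rn ha hf).1 (i3 _ _ (h.sub_rn ha) ((h.mem_rn hb hf).2 h1) ?_)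
    rw [h.nset_rn ha, h.nset_rn hb, setTR_st]
    exact ht
  · rintro _ ⟨a, ha, rfl, h1⟩ _ ⟨b, hb, rfl, h2⟩ ⟨c, hc, e⟩
    refine ⟨c, hc, e, ?_⟩
    refine (h.mem_rn hc hf).1 (i4 _ _ _ ((h.mem_rn ha hf).2 h1) ((h.mem_rn hb hf).2 h2) (h.sub_rn hc) ?_)
    rw [h.nset_rn ha, h.nset_rn hb, h.nset_rn hc, e, st_bjoin]
  · rintro _ ⟨a, ha, rfl⟩ hε
    obtain ⟨m, hm, h1⟩ := hC _ (h.sub_rn ha) (by
      intro ε he
      obtain ⟨_, ⟨b, hb, rfl, h2⟩, h3⟩ := hε ε he
      refine ⟨_, (h.mem_rn hb hf).2 h2, ?_⟩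
      rw [h.nset_rn ha, h.nset_rn hb]
      exact h3)
    obtain ⟨b, hb, rfl, h2⟩ := key m hm
    refine ⟨_, ⟨b, hb, rfl, h2⟩, ?_⟩
    rw [h.nset_rn ha, h.nset hb] at h1
    exact h1

theorem Nice2.lim {x y : BSet B} (hx : x ∈ N) (hy : y ∈ N) (hl : Lim (rea W (rv x)) (rea W (rv y))) :
    W.S (limB (rv x) (rv y)) := by
  by_contra h1
  unfold limB at h1
  rw [← W.compl', compl_iInf] at h1
  obtain ⟨k, hk⟩ := h.infL1 x hx y hy h1
  obtain ⟨s, hs⟩ := hl k
  refine W.compl'.1 hk (W.mono' (le_iSup _ s) ?_)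
  by_contra h2
  rw [← W.compl', compl_iInf] at h2
  obtain ⟨t, ht⟩ := h.infL2 x hx y hy k s h2
  refine W.compl'.1 ht ?_
  rw [bih_iff, ← rea_iff, ← rea_iff, hs t]

theorem Nice2.trs {x y : BSet B} (hx : x ∈ N) (hy : y ∈ N) (hm : ∀ i, rn (rw (rv x) i) ∈ N)
    (ht : ∀ i, TR (row i (rea W (rv x))) (rea W (rv y))) : W.S (⨅ i, trB (rw (rv x) i) (rv y)) := by
  by_contra h1
  rw [← W.compl', compl_iInf] at h1
  obtain ⟨i, hi⟩ := h.infT x hx y hy h1
  refine W.compl'.1 hi ?_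
  have h2 := h.mt _ (hm i) y hy
  rw [rv_rn] at h2
  rw [trB_iff h2, rea_rw]
  exact ht i

/-- the conditions on the ideal hold in the model -/
theorem Nice2.idB {f : BSet B} (hf : f ∈ N) (H : ClosedIdeal (Rs W N) (Ss W N f)) : W.S (idB (Pf f)) := by
  rw [← mw_spec f]
  have hwN : rn (mw f) ∈ N := h.mn f hf
  obtain ⟨w, hw⟩ : ∃ w, w = mw f := ⟨_, rfl⟩
  rw [← hw] at hwN ⊢
  have hr : ∀ i, rn (rw w i) ∈ N := by
    intro i
    have h1 := h.op (.row i) _ hwN
    rwa [rv_rn, LB_row] at h1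
  have hj : rn (jnB (rw w 0) (rw w 1)) ∈ N := by
    have h1 := h.op .j01 _ hwN
    rwa [rv_rn, LB_j01] at h1
  have toS : ∀ u : ℕ → B, rn u ∈ N → W.S (Pf f u) → rea W u ∈ Ss W N f := by
    intro u hu h1
    exact ⟨rn u, hu, by rw [rv_rn], by rw [rv_rn]; exact h1⟩
  have ofS : ∀ u : ℕ → B, rn u ∈ N → rea W u ∈ Ss W N f → W.S (Pf f u) := by
    intro u hu h1
    have h2 := h.mem_Ss hu (f := f) (by rw [rv_rn]; exact h1)
    rwa [rv_rn] at h2
  have toR : ∀ u : ℕ → B, rn u ∈ N → rea W u ∈ Rs W N := fun u hu => ⟨rn u, hu, by rw [rv_rn]⟩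
  unfold idV
  simp only [W.inf_iff, W.himp_iff]
  refine ⟨⟨⟨?_, ?_⟩, ?_⟩, ?_⟩
  · rintro ⟨h1, h2⟩
    refine ofS _ (hr 0) (H.down _ (toR _ (hr 0)) _ (toS _ (hr 1) h1) ?_)
    have h3 := h.mt _ (hr 0) _ (hr 1)
    rw [rv_rn, rv_rn] at h3
    exact (trB_iff h3).1 h2
  · rintro ⟨h1, h2⟩
    refine ofS _ hj ?_
    rw [rea_jnB]
    refine H.join _ (toS _ (hr 0) h1) _ (toS _ (hr 1) h2) ?_
    rw [← rea_jnB]
    exact toR _ hj
  · obtain ⟨D, ⟨b, hb, rfl, h1⟩, hD⟩ := abs_J H (toR _ (hr 0))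
    refine W.mono' (le_iSup _ (rv b)) (W.inf' h1 ?_)
    have h2 := h.lim hb (hr 0) (by rw [rv_rn]; exact hD)
    rwa [rv_rn] at h2
  · intro h1
    obtain ⟨D, ⟨b, hb, rfl, h2⟩, hD⟩ := abs_D H (toR _ hwN) (fun i => by
      rw [← rea_rw]
      exact toS _ (hr i) (W.mono' (iInf_le _ i) h1))
    refine W.mono' (le_iSup _ (rv b)) (W.inf' h2 ?_)
    have h3 := h.trs hwN hb (by rw [rv_rn]; exact hr) (by rw [rv_rn]; exact hD)
    rwa [rv_rn] at h3

theorem Nice2.all (hB : ∀ P : (ℕ → B) → B, Ext1 P → ∀ A, CTI.idB P ≤ P A) (U : Md W N)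
    (hI : IsTuringIdeal (Me W N) (el (chkAll B ℕ) h.om) U)
    (hC : IsClosedSub (Me W N) (el (chkAll B ℕ) h.om) U) (x : Md W N)
    (hx : SubW (Me W N) (el (chkAll B ℕ) h.om) x) : Me W N x U := by
  obtain ⟨f, hf, rfl⟩ := ex_el U
  obtain ⟨a, ha, rfl⟩ := ex_el x
  rw [h.mem_iff ha hf hx]
  exact W.mono' (hB (Pf f) (Pf_ext f) (rv a)) (h.idB hf (h.closedIdeal hf hI hC))

end

/-- from the Boolean values to a model of ZFC with standard natural numbers -/
theorem partMC {B : Type} [CompleteBooleanAlgebra B] [Nontrivial B]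
    (hB : ∀ P : (ℕ → B) → B, Ext1 P → ∀ A, idB P ≤ P A) :
    ∃ (M : Type 1) (E : M → M → Prop), IsZFC E ∧ ∃ w : M, IsStdOmega E w ∧
      ∀ U : M, IsTuringIdeal E w U → IsClosedSub E w U → ∀ x, SubW E w x → E x U := by
  obtain ⟨W, N, h⟩ := exists_nice2 (B := B)
  exact ⟨Md W N, Me W N, h.zfc, el (chkAll B ℕ) h.om, h.std, fun U hI hC x hx => h.all hB U hI hC x hx⟩

end Pool.Agent.CTI
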