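import Pool.Agent.Lib.CTI.CorB
import Pool.Agent.Lib.CTI.Mod

/-!
# Main: there is a model of ZFC in which every Turing ideal which generates a closed subspace contains all reals
-/

set_option autoImplicit false

namespace Pool.Agent.CTI

open Pool.Agent.SX Cardinal Pool.Agent.PolB Pool.Agent.Lib.BVM

theorem noClosedIdeal : ∃ (M : Type 1) (E : M → M → Prop), IsZFC E ∧ ∃ w : M, IsStdOmega E w ∧
    ∀ U : M, IsTuringIdeal E w U → IsClosedSub E w U → ∀ x, SubW E w x → E x U := by
  have hK : 𝔠 < #(Set Cs) := by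
    have h := Cardinal.cantor #Cs
    rw [Cardinal.mk_set]
    have h1 : #Cs = 𝔠 := by simp [Cs]
    rw [h1] at h ⊢
    exact h
  haveI : Nontrivial (BP (Set Cs)) := by
    refine ⟨⟨⊤, ⊥, fun h => ?_⟩⟩
    have h1 := Ap_top (le := leP (Set Cs)) (1 : PM (Set Cs))
    rw [h] at h1
    exact Ap_bot _ h1
  exact partMC fun P hP A => coreB' hK P hP A

end Pool.Agent.CTI
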