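import Pool.Agent.Lib.SX.M.Gen
import Pool.Agent.Lib.SX.M.Cls
import Pool.Agent.Lib.SX.M.Nic
import Pool.Agent.Lib.BVM.ZFC3
import Pool.Agent.Lib.CTI.LB
import Pool.Agent.Lib.CTI.Chc

/-!
# NiC: the ultrafilter and the countable set of names
-/

set_option autoImplicit false

namespace Pool.Agent.CTI

open Pool.Agent.SX Pool.Agent.Mart Pool.Agent.Lib.BVM Pool.Agent.Lib.BVM.BSet
open scoped symmDiff

variable {B : Type} [CompleteBooleanAlgebra B]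

/-- the predicate of reals given by a name of a set -/
noncomputable def Pf (f : BSet B) : (ℕ → B) → B := fun u => bMem (rn u) f

theorem Pf_ext (f : BSet B) : Ext1 (Pf f) := by
  intro u u'
  rw [← bEq_rn]
  exact bMem_congr_left _ _ _

/-- a name `w` of a real for which the conditions on the ideal given by `f` have the least value -/
noncomputable def mw (f : BSet B) : ℕ → B := (exists_min_idV (Pf_ext f)).choose

theorem mw_spec (f : BSet B) : idV (Pf f) (mw f) = idB (Pf f) := (exists_min_idV (Pf_ext f)).choose_spec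

/-- the properties of the ultrafilter and of the countable set of names which are used -/
structure Nice2 (W : Ult B) (N : Set (BSet B)) : Prop where
  wit : ∀ (φ : Fm) (v : ℕ → BSet B), (∀ i, v i ∈ N) →
    ∃ x ∈ N, bval φ (scons x v) = ⨆ y, bval φ (scons y v)
  nat : ∀ n : ℕ, chk B n ∈ N
  om : chkAll B ℕ ∈ N
  op : ∀ (o : Opn), ∀ x ∈ N, rn (LB (loc_op o) (rv x)) ∈ N
  rr : ∀ x ∈ N, rn (rv x) ∈ N
  mn : ∀ f ∈ N, rn (mw f) ∈ N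
  sup1 : ∀ x ∈ N, W.S (⨆ n : ℕ, bEq x (chk B n)) → ∃ n : ℕ, W.S (bEq x (chk B n))
  sup3 : ∀ x ∈ N, ∀ y ∈ N, W.S (⨆ n, (rv x n ⇔ rv y n)ᶜ) → ∃ n, W.S (rv x n ⇔ rv y n)ᶜ
  mt : ∀ x ∈ N, ∀ y ∈ N, Meets W (rv x) (rv y)
  infT : ∀ x ∈ N, ∀ y ∈ N, W.S (⨆ i, (trB (rw (rv x) i) (rv y))ᶜ) → ∃ i, W.S (trB (rw (rv x) i) (rv y))ᶜ
  infL1 : ∀ x ∈ N, ∀ y ∈ N, W.S (⨆ k, (⨆ s, ⨅ t, (rv x (Nat.pair k (s + t)) ⇔ rv y k))ᶜ) →
    ∃ k, W.S (⨆ s, ⨅ t, (rv x (Nat.pair k (s + t)) ⇔ rv y k))ᶜ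
  infL2 : ∀ x ∈ N, ∀ y ∈ N, ∀ k s, W.S (⨆ t, (rv x (Nat.pair k (s + t)) ⇔ rv y k)ᶜ) →
    ∃ t, W.S (rv x (Nat.pair k (s + t)) ⇔ rv y k)ᶜ

theorem exists_nice2 [Nontrivial B] : ∃ (W : Ult B) (N : Set (BSet B)), Nice2 W N := by
  obtain ⟨en, hen⟩ := exists_surjective_nat Opn
  let G : ℕ → BSet B → BSet B := fun i x => match i with
    | 0 => rn (rv x)
    | 1 => rn (mw x)
    | n + 2 => rn (LB (loc_op (en n)) (rv x))
  have h0 : (Set.range (fun n : ℕ => chk B n) ∪ {chkAll B ℕ}).Countable :=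
    (Set.countable_range _).union (Set.countable_singleton _)
  obtain ⟨N, hN, hN0, hG, hw⟩ := exists_cls h0 G
  have := hN.to_subtype
  let I : Type 1 := N ⊕ (N × N) ⊕ (N × N) ⊕ (N × N × ℕ) ⊕ (N × N × ℕ × ℕ) ⊕ (N × N × ℕ × ℕ × ℕ) ⊕
    (N × N) ⊕ (N × N) ⊕ (N × N × ℕ × ℕ)
  have hne : Nonempty I := ⟨Sum.inl ⟨chk B (0 : ℕ), hN0 (Or.inl ⟨0, rfl⟩)⟩⟩
  have hct : Countable I := inferInstance
  let ι : I → Type := fun i => match i with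
    | .inl _ => ℕ
    | .inr (.inl _) => ℕ
    | .inr (.inr (.inl _)) => ℕ
    | .inr (.inr (.inr (.inl _))) => ℕ
    | .inr (.inr (.inr (.inr (.inl _)))) => ℕ
    | .inr (.inr (.inr (.inr (.inr (.inl (_, _, e, n, t)))))) =>
      {y : Cs × Bool // Pool.Agent.Mart.U y.1 e n t y.2.toNat}
    | .inr (.inr (.inr (.inr (.inr (.inr (.inl _)))))) => ℕ
    | .inr (.inr (.inr (.inr (.inr (.inr (.inr (.inl _))))))) => ℕ
    | .inr (.inr (.inr (.inr (.inr (.inr (.inr (.inr _))))))) => ℕ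
  let s : (i : I) → ι i → B := fun i => match i with
    | .inl x => fun n : ℕ => bEq x.1 (chk B n)
    | .inr (.inl (x, y)) => fun n : ℕ => (rv x.1 n ⇔ rv y.1 n)ᶜ
    | .inr (.inr (.inl (x, y))) => fun e : ℕ => trE e (rv x.1) (rv y.1)
    | .inr (.inr (.inr (.inl (x, y, e)))) => fun n : ℕ => (⨆ t, ⨆ z, trI e n t (rv x.1) (rv y.1) z)ᶜ
    | .inr (.inr (.inr (.inr (.inl (x, y, e, n))))) => fun t : ℕ => ⨆ z, trI e n t (rv x.1) (rv y.1) z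
    | .inr (.inr (.inr (.inr (.inr (.inl (x, y, e, n, t)))))) => fun z => trI e n t (rv x.1) (rv y.1) z
    | .inr (.inr (.inr (.inr (.inr (.inr (.inl (x, y))))))) => fun i : ℕ =>
      (trB (rw (rv x.1) i) (rv y.1))ᶜ
    | .inr (.inr (.inr (.inr (.inr (.inr (.inr (.inl (x, y)))))))) => fun k : ℕ =>
      (⨆ s, ⨅ t, (rv x.1 (Nat.pair k (s + t)) ⇔ rv y.1 k))ᶜ
    | .inr (.inr (.inr (.inr (.inr (.inr (.inr (.inr (x, y, k, s)))))))) => fun t : ℕ =>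
      (rv x.1 (Nat.pair k (s + t)) ⇔ rv y.1 k)ᶜ
  obtain ⟨W, -, hW⟩ := exists_ult_gen' (b := (⊤ : B)) top_ne_bot s
  refine ⟨W, N, hw, fun n => hN0 (Or.inl ⟨n, rfl⟩), hN0 (Or.inr rfl), ?_, fun x hx => hG 0 x hx,
    fun x hx => hG 1 x hx, ?_, ?_, ?_, ?_, ?_, ?_⟩
  · intro o x hx
    obtain ⟨n, rfl⟩ := hen o
    exact hG (n + 2) x hx
  · intro x hx
    exact hW (.inl ⟨x, hx⟩)
  · intro x hx y hy
    exact hW (.inr (.inl (⟨x, hx⟩, ⟨y, hy⟩)))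
  · intro x hx y hy
    refine ⟨?_, ?_, ?_, ?_⟩
    · exact hW (.inr (.inr (.inl (⟨x, hx⟩, ⟨y, hy⟩))))
    · intro e
      exact hW (.inr (.inr (.inr (.inl (⟨x, hx⟩, ⟨y, hy⟩, e)))))
    · intro e n
      exact hW (.inr (.inr (.inr (.inr (.inl (⟨x, hx⟩, ⟨y, hy⟩, e, n))))))
    · intro e n t
      exact hW (.inr (.inr (.inr (.inr (.inr (.inl (⟨x, hx⟩, ⟨y, hy⟩, e, n, t)))))))
  · intro x hx y hy
    exact hW (.inr (.inr (.inr (.inr (.inr (.inr (.inl (⟨x, hx⟩, ⟨y, hy⟩))))))))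
  · intro x hx y hy
    exact hW (.inr (.inr (.inr (.inr (.inr (.inr (.inr (.inl (⟨x, hx⟩, ⟨y, hy⟩)))))))))
  · intro x hx y hy k s
    exact hW (.inr (.inr (.inr (.inr (.inr (.inr (.inr (.inr (⟨x, hx⟩, ⟨y, hy⟩, k, s)))))))))

end Pool.Agent.CTI
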